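import Pool.Agent.H38.LocalBasic

/-! # The lattice of local clones embeds into the lattice of local monoids -/

namespace Pool.Agent.H38

universe u

set_option linter.unusedVariables false
set_option linter.unusedSectionVars false

variable {X : Type u}

/-- Points: a label, a length `n + 1` and an `(n+1)`-tuple. -/
abbrev Pt (X : Type u) : Type u := Σ p : ℕ × ℕ, (Fin (p.2 + 1) → X)

/-- The map acting as `G` from component `p` to component `p'`, and as the identity elsewhere. -/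
def mv (p p' : ℕ × ℕ) (G : (Fin (p.2 + 1) → X) → (Fin (p'.2 + 1) → X)) : Pt X → Pt X :=
  fun y => if h : y.1 = p then ⟨p', G (fun k => y.2 (Fin.cast (by rw [h]) k))⟩ else y

theorem mv_same (p p' : ℕ × ℕ) (G : (Fin (p.2 + 1) → X) → (Fin (p'.2 + 1) → X))
    (x : Fin (p.2 + 1) → X) : mv p p' G ⟨p, x⟩ = ⟨p', G x⟩ := by
  simp [mv]

theorem mv_ne (p p' : ℕ × ℕ) (G : (Fin (p.2 + 1) → X) → (Fin (p'.2 + 1) → X))
    (y : Pt X) (h : y.1 ≠ p) : mv p p' G y = y := by
  simp [mv, h]

/-- Reading the tuple of a point in component `p` (arbitrary elsewhere). -/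
noncomputable def rd [Nonempty X] (p : ℕ × ℕ) (y : Pt X) : Fin (p.2 + 1) → X :=
  open Classical in
  if h : y.1 = p then (fun j => y.2 (Fin.cast (by rw [h]) j)) else Classical.arbitrary _

theorem rd_same [Nonempty X] (p : ℕ × ℕ) (x : Fin (p.2 + 1) → X) : rd p ⟨p, x⟩ = x := by
  simp [rd]

/-- Membership in the local monoid attached to a local clone. -/
def InPhi (a : LocalClone X) (φ : Pt X → Pt X) : Prop :=
  ∀ p : ℕ × ℕ, ∃ p' : ℕ × ℕ, ∃ G : (Fin (p.2 + 1) → X) → (Fin (p'.2 + 1) → X),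
    (∀ i, (fun x => G x i) ∈ a.ops p.2) ∧ ∀ x, φ ⟨p, x⟩ = ⟨p', G x⟩

variable [Nonempty X]

/-- The local monoid attached to a local clone. -/
def phi (a : LocalClone X) : LocalMonoid (Pt X) where
  carrier := {φ | InPhi a φ}
  id_mem := fun p => ⟨p, id, fun i => a.proj_mem p.2 i, fun x => rfl⟩
  comp_mem := by
    intro f g hf hg p
    obtain ⟨p', G, hG, hGe⟩ := hg p
    obtain ⟨p'', H, hH, hHe⟩ := hf p'
    refine ⟨p'', fun x => H (G x), fun i => ?_, fun x => ?_⟩
    · exact a.comp_mem _ _ (fun x => H x i) (fun j x => G x j) (hH i) hG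
    · rw [Function.comp_apply, hGe, hHe]
  closed := by
    rw [isClosed_pointwise_iff]
    intro φ hφ p
    obtain ⟨x0⟩ : Nonempty (Fin (p.2 + 1) → X) := inferInstance
    have hx : ∀ x, ∃ v : Fin ((φ ⟨p, x0⟩).1.2 + 1) → X, φ ⟨p, x⟩ = ⟨(φ ⟨p, x0⟩).1, v⟩ := by
      classical
      intro x
      obtain ⟨ψ, hψ, hψφ⟩ := hφ {⟨p, x⟩, ⟨p, x0⟩}
      obtain ⟨p', G, hG, hGe⟩ := hψ p
      have h1 : φ ⟨p, x⟩ = ⟨p', G x⟩ := by rw [← hψφ _ (by simp), hGe]
      have h2 : φ ⟨p, x0⟩ = ⟨p', G x0⟩ := by rw [← hψφ _ (by simp), hGe]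
      rw [h1, h2]
      exact ⟨G x, rfl⟩
    choose v hv using hx
    refine ⟨_, v, fun i => ?_, hv⟩
    apply a.mem_of_approx
    intro F
    classical
    obtain ⟨ψ, hψ, hψφ⟩ := hφ (insert ⟨p, x0⟩ (F.image fun x => ⟨p, x⟩))
    obtain ⟨p', G, hG, hGe⟩ := hψ p
    have h2 : φ ⟨p, x0⟩ = ⟨p', G x0⟩ := by rw [← hψφ _ (by simp), hGe]
    have hp : (φ ⟨p, x0⟩).1 = p' := by rw [h2]
    clear h2
    generalize hq : (φ ⟨p, x0⟩).1 = q at v hv hp i
    subst hp
    refine ⟨fun x => G x i, hG i, fun x hx => ?_⟩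
    have h3 : φ ⟨p, x⟩ = ⟨q, G x⟩ := by
      rw [← hψφ _ (Finset.mem_insert_of_mem (Finset.mem_image_of_mem _ hx)), hGe]
    rw [hv x] at h3
    have h4 := (Sigma.mk.inj_iff.mp h3).2
    rw [heq_iff_eq] at h4
    change G x i = v x i
    rw [h4]

theorem mem_phi (a : LocalClone X) (φ : Pt X → Pt X) : φ ∈ (phi a).carrier ↔ InPhi a φ := Iff.rfl

theorem mv_mem_phi (a : LocalClone X) (p p' : ℕ × ℕ)
    (G : (Fin (p.2 + 1) → X) → (Fin (p'.2 + 1) → X)) (hG : ∀ i, (fun x => G x i) ∈ a.ops p.2) :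
    mv p p' G ∈ (phi a).carrier := by
  intro r
  by_cases h : r = p
  · subst h
    exact ⟨p', G, hG, fun x => mv_same _ _ _ _⟩
  · exact ⟨r, id, fun i => a.proj_mem r.2 i, fun x => mv_ne _ _ _ _ h⟩

theorem le_of_phi_le {a b : LocalClone X} (h : phi a ≤ phi b) : a ≤ b := by
  intro n f hf
  have h1 : mv (0, n) (0, 0) (fun x _ => f x) ∈ (phi b).carrier :=
    h (mv_mem_phi a (0, n) (0, 0) (fun x _ => f x) (fun _ => hf))
  obtain ⟨p', G, hG, hGe⟩ := h1 (0, n)
  obtain ⟨x0⟩ : Nonempty (Fin (n + 1) → X) := inferInstance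
  have h0 := hGe x0
  rw [mv_same] at h0
  have hp : (0, 0) = p' := (Sigma.mk.inj_iff.mp h0).1
  subst hp
  have : f = fun x => G x 0 := by
    funext x
    have h2 := hGe x
    rw [mv_same] at h2
    have h3 := (Sigma.mk.inj_iff.mp h2).2
    rw [heq_iff_eq] at h3
    exact congrFun h3 0
  rw [this]
  exact hG 0

theorem phi_mono {a b : LocalClone X} (h : a ≤ b) : phi a ≤ phi b := by
  intro φ hφ p
  obtain ⟨p', G, hG, hGe⟩ := hφ p
  exact ⟨p', G, fun i => h _ (hG i), hGe⟩

theorem phi_inf (a b : LocalClone X) : phi a ⊓ phi b ≤ phi (a ⊓ b) := by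
  intro φ hφ p
  rw [LocalMonoid.inf_carrier] at hφ
  obtain ⟨p1, G1, hG1, hGe1⟩ := hφ.1 p
  obtain ⟨p2, G2, hG2, hGe2⟩ := hφ.2 p
  obtain ⟨x0⟩ : Nonempty (Fin (p.2 + 1) → X) := inferInstance
  have hp : p1 = p2 := by
    have h := hGe1 x0
    rw [hGe2 x0] at h
    exact (Sigma.mk.inj_iff.mp h).1.symm
  subst hp
  have hG : G1 = G2 := by
    funext x
    have h := hGe1 x
    rw [hGe2 x] at h
    exact (heq_iff_eq.mp (Sigma.mk.inj_iff.mp h).2).symm
  subst hG
  refine ⟨p1, G1, fun i => ?_, hGe1⟩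
  rw [LocalClone.inf_ops]
  exact ⟨hG1 i, hG2 i⟩

/-! ### Joins -/

section Join

variable (K : LocalMonoid (Pt X))

/-- `G` is good for `K` if it can be performed by `K` from any label to any label. -/
def Good (n m : ℕ) (G : (Fin (n + 1) → X) → (Fin (m + 1) → X)) : Prop :=
  ∀ l l' : ℕ, mv (l, n) (l', m) G ∈ K.carrier

variable {K}

theorem Good.comp {n m k : ℕ} {G : (Fin (n + 1) → X) → (Fin (m + 1) → X)}
    {H : (Fin (m + 1) → X) → (Fin (k + 1) → X)} (hG : Good K n m G) (hH : Good K m k H) :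
    Good K n k (fun x => H (G x)) := by
  classical
  intro l l''
  apply K.mem_of_approx
  intro F
  -- a fresh label
  obtain ⟨l', hl'⟩ : ∃ l' : ℕ, ∀ y ∈ F, y.1.1 ≠ l' := by
    refine ⟨(F.image fun y => y.1.1).sup id + 1, fun y hy h => ?_⟩
    have h1 : y.1.1 ≤ (F.image fun y => y.1.1).sup id :=
      Finset.le_sup (f := id) (Finset.mem_image_of_mem (fun y : Pt X => y.1.1) hy)
    omega
  refine ⟨mv (l', m) (l'', k) H ∘ mv (l, n) (l', m) G,
    K.comp_mem _ _ (hH l' l'') (hG l l'), fun y hy => ?_⟩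
  rw [Function.comp_apply]
  by_cases h : y.1 = (l, n)
  · obtain ⟨r, x⟩ := y
    change r = (l, n) at h
    subst h
    rw [mv_same, mv_same, mv_same]
  · rw [mv_ne (l, n) (l', m) G y h, mv_ne _ _ _ y h, mv_ne]
    intro h1
    exact hl' y hy (by rw [h1])

theorem Good.of_le {a : LocalClone X} (ha : phi a ≤ K) {n m : ℕ}
    {G : (Fin (n + 1) → X) → (Fin (m + 1) → X)} (hG : ∀ i, (fun x => G x i) ∈ a.ops n) :
    Good K n m G := fun l l' => ha (mv_mem_phi a (l, n) (l', m) G hG)

/-- Extending a good map by one more coordinate. -/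
def AppendGood (K : LocalMonoid (Pt X)) (n : ℕ) (f : (Fin (n + 1) → X) → X) : Prop :=
  ∀ (N M : ℕ) (G : (Fin (N + 1) → X) → (Fin (M + 1) → X)), Good K N M G →
    ∀ α : Fin (n + 1) → Fin (M + 1),
      Good K N (M + 1) (fun x => Fin.snoc (α := fun _ => X) (G x) (f fun k => G x (α k)))

theorem family {a : LocalClone X} (ha : phi a ≤ K) {m : ℕ} :
    ∀ (k : ℕ) (g : Fin k → (Fin (m + 1) → X) → X), (∀ j, AppendGood K m (g j)) →
      ∀ (N M : ℕ) (G : (Fin (N + 1) → X) → (Fin (M + 1) → X)), Good K N M G →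
      ∀ α : Fin (m + 1) → Fin (M + 1),
      ∃ (M' : ℕ) (G' : (Fin (N + 1) → X) → (Fin (M' + 1) → X))
        (ι : Fin (M + 1) → Fin (M' + 1)) (κ : Fin k → Fin (M' + 1)),
        Good K N M' G' ∧ (∀ x i, G' x (ι i) = G x i) ∧
          ∀ x j, G' x (κ j) = g j fun k => G x (α k) := by
  intro k
  induction k with
  | zero =>
    intro g _ N M G hG α
    exact ⟨M, G, id, Fin.elim0, hG, fun _ _ => rfl, fun _ j => j.elim0⟩
  | succ k ih =>
    intro g hg N M G hG α
    obtain ⟨M', G', ι, κ, hG', h1, h2⟩ := ih (fun j => g j.castSucc) (fun j => hg _) N M G hG α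
    refine ⟨M' + 1, _, fun i => (ι i).castSucc,
      Fin.snoc (α := fun _ => Fin (M' + 1 + 1)) (fun j => (κ j).castSucc) (Fin.last _),
      hg (Fin.last k) N M' G' hG' (fun i => ι (α i)), ?_, ?_⟩
    · intro x i
      rw [Fin.snoc_castSucc, h1]
    · intro x j
      refine Fin.lastCases ?_ (fun j => ?_) j
      · rw [Fin.snoc_last, Fin.snoc_last]
        simp only [h1]
      · rw [Fin.snoc_castSucc, Fin.snoc_castSucc, h2]

theorem Good.reindex {a : LocalClone X} (ha : phi a ≤ K) {n m k : ℕ}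
    {G : (Fin (n + 1) → X) → (Fin (m + 1) → X)} (hG : Good K n m G)
    (ρ : Fin (k + 1) → Fin (m + 1)) : Good K n k (fun x i => G x (ρ i)) :=
  hG.comp (Good.of_le ha (G := fun x i => x (ρ i)) (fun i => a.proj_mem m (ρ i)))

/-- The local clone of all operations that can be appended by `K`. -/
def appendClone (K : LocalMonoid (Pt X)) (a : LocalClone X) (ha : phi a ≤ K) : LocalClone X where
  ops := fun n => {f | AppendGood K n f}
  proj_mem := by
    intro n k N M G hG α
    apply hG.comp (Good.of_le ha (G := fun x => Fin.snoc (α := fun _ => X) x (x (α k))) ?_)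
    intro i
    refine Fin.lastCases ?_ (fun j => ?_) i
    · simp only [Fin.snoc_last]
      exact a.proj_mem M (α k)
    · simp only [Fin.snoc_castSucc]
      exact a.proj_mem M j
  comp_mem := by
    intro n m f g hf hg N M G hG α
    obtain ⟨M', G', ι, κ, hG', h1, h2⟩ := family ha (n + 1) g hg N M G hG α
    have h3 := hf N M' G' hG' κ
    have h4 := h3.reindex ha (k := M + 1)
      (Fin.snoc (α := fun _ => Fin (M' + 1 + 1)) (fun i => (ι i).castSucc) (Fin.last _))
    convert h4 using 1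
    funext x i
    refine Fin.lastCases ?_ (fun j => ?_) i
    · simp only [Fin.snoc_last, h2]
    · simp only [Fin.snoc_castSucc, h1]
  closed := by
    classical
    intro n
    rw [isClosed_pointwise_iff]
    intro f hf N M G hG α l l'
    apply K.mem_of_approx
    intro F
    obtain ⟨f', hf', hff'⟩ := hf (F.image fun y => fun k => G (rd (l, N) y) (α k))
    refine ⟨_, hf' N M G hG α l l', fun y hy => ?_⟩
    by_cases h : y.1 = (l, N)
    · obtain ⟨r, x⟩ := y
      change r = (l, N) at h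
      subst h
      rw [mv_same, mv_same]
      have h1 := hff' (fun k => G x (α k)) (by
        apply Finset.mem_image.mpr
        exact ⟨_, hy, by rw [rd_same]⟩)
      rw [h1]
    · rw [mv_ne _ _ _ y h, mv_ne _ _ _ y h]

theorem le_appendClone {a b : LocalClone X} (ha : phi a ≤ K) (hb : phi b ≤ K) :
    b ≤ appendClone K a ha := by
  intro n f hf N M G hG α
  apply hG.comp (Good.of_le hb (G := fun x => Fin.snoc (α := fun _ => X) x (f fun k => x (α k))) ?_)
  intro i
  refine Fin.lastCases ?_ (fun j => ?_) i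
  · simp only [Fin.snoc_last]
    exact b.comp_mem n M f (fun k x => x (α k)) hf (fun k => b.proj_mem M (α k))
  · simp only [Fin.snoc_castSucc]
    exact b.proj_mem M j

theorem good_of_sup {a b : LocalClone X} (ha : phi a ≤ K) (hb : phi b ≤ K) {n m : ℕ}
    (G : (Fin (n + 1) → X) → (Fin (m + 1) → X)) (hG : ∀ i, (fun x => G x i) ∈ (a ⊔ b).ops n) :
    Good K n m G := by
  have hle : a ⊔ b ≤ appendClone K a ha := sup_le (le_appendClone ha ha) (le_appendClone ha hb)
  have hid : Good K n n (fun x => x) := Good.of_le ha (fun i => a.proj_mem n i)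
  obtain ⟨M', G', ι, κ, hG', h1, h2⟩ := family ha (m + 1) (fun j x => G x j)
    (fun j => hle n (hG j)) n n (fun x => x) hid id
  have h3 := hG'.reindex ha κ
  convert h3 using 1
  funext x i
  rw [h2]
  rfl

theorem phi_sup (a b : LocalClone X) : phi (a ⊔ b) ≤ phi a ⊔ phi b := by
  classical
  set K := phi a ⊔ phi b with hK
  have ha : phi a ≤ K := le_sup_left
  have hb : phi b ≤ K := le_sup_right
  intro φ hφ
  choose q G hG hGe using hφ
  apply K.mem_of_approx
  intro F
  -- a bound for all labels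
  set P : Finset (ℕ × ℕ) := F.image Sigma.fst with hP
  obtain ⟨L, hL⟩ : ∃ L : ℕ, ∀ p ∈ P, p.1 < L ∧ (q p).1 < L := by
    refine ⟨(P.sup fun p => p.1 + (q p).1) + 1, fun p hp => ?_⟩
    have h1 : p.1 + (q p).1 ≤ P.sup fun p => p.1 + (q p).1 :=
      Finset.le_sup (f := fun p : ℕ × ℕ => p.1 + (q p).1) hp
    omega
  -- moving everything up by `L`
  set c : ℕ × ℕ → ℕ × ℕ := fun p => (L + p.1, p.2) with hc
  have hcinj : Function.Injective c := by
    intro p p' h
    simp only [hc, Prod.mk.injEq] at h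
    ext <;> omega
  have hδ : (fun y : Pt X => (⟨(L + y.1.1, y.1.2), y.2⟩ : Pt X)) ∈ K.carrier := by
    apply ha
    intro p
    exact ⟨(L + p.1, p.2), id, fun i => a.proj_mem p.2 i, fun x => rfl⟩
  have key : ∀ P' : Finset (ℕ × ℕ), P' ⊆ P → ∃ ψ ∈ K.carrier,
      (∀ p ∈ P', ∀ x : Fin (p.2 + 1) → X, ψ ⟨(L + p.1, p.2), x⟩ = ⟨q p, G p x⟩) ∧
      ∀ y : Pt X, (∀ p ∈ P', y.1 ≠ c p) → ψ y = y := by
    intro P'
    induction P' using Finset.induction_on with
    | empty =>
      intro _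
      exact ⟨id, K.id_mem, by simp, fun y _ => rfl⟩
    | insert p P' hp ih =>
      intro hsub
      obtain ⟨ψ, hψ, h1, h2⟩ := ih ((Finset.subset_insert _ _).trans hsub)
      have hpP : p ∈ P := hsub (Finset.mem_insert_self _ _)
      refine ⟨ψ ∘ mv (L + p.1, p.2) (q p) (G p), K.comp_mem _ _ hψ ?_, ?_, ?_⟩
      · exact good_of_sup ha hb (n := p.2) (m := (q p).2) (G p) (hG p) (L + p.1) (q p).1
      · intro p' hp' x
        rw [Function.comp_apply]
        by_cases hpp : p' = p
        · subst hpp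
          rw [mv_same]
          apply h2
          intro r hr hqr
          have := (hL _ hpP).2
          rw [Prod.ext_iff] at hqr
          simp only [hc] at hqr
          omega
        · rw [mv_ne]
          · exact h1 p' ((Finset.mem_insert.mp hp').resolve_left hpp) x
          · intro h
            exact hpp (hcinj h)
      · intro y hy
        rw [Function.comp_apply, mv_ne]
        · exact h2 y fun r hr => hy r (Finset.mem_insert_of_mem hr)
        · exact hy p (Finset.mem_insert_self _ _)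
  obtain ⟨ψ, hψ, h1, -⟩ := key P subset_rfl
  refine ⟨_, K.comp_mem _ _ hψ hδ, fun y hy => ?_⟩
  rw [Function.comp_apply]
  have := h1 y.1 (Finset.mem_image_of_mem _ hy) y.2
  rw [this]
  exact (hGe y.1 y.2).symm

end Join

theorem exists_clone_monoid (X : Type u) [Nonempty X] :
    ∃ f : LatticeHom (LocalClone X) (LocalMonoid (Pt X)), Function.Injective f :=
  exists_latticeHom phi (fun _ _ => phi_mono)
    (fun a b h => le_antisymm (le_of_phi_le h.le) (le_of_phi_le h.ge)) phi_inf phi_sup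

end Pool.Agent.H38
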