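import Mathlib

/-! # Fitting classes with the factorised radical property: basic facts -/

namespace Pool.Agent.H38.Fit

set_option linter.unusedVariables false

/-- The radical of `G` for a class `F` of groups. -/
def rad (F : (G : Type) → [Group G] → Prop) (G : Type) [Group G] : Subgroup G :=
  sSup {N : Subgroup G | N.Normal ∧ F ↥N}

/-- A class of finite soluble groups that is a Fitting class and satisfies the factorised radical
property (for factors in the class). -/
structure IsFit (F : (G : Type) → [Group G] → Prop) : Prop where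
  fin : ∀ (G : Type) [Group G], F G → Finite G
  sol : ∀ (G : Type) [Group G], F G → Group.IsSolvable G
  unit : F Unit
  iso : ∀ (G H : Type) [Group G] [Group H], (G ≃* H) → F G → F H
  sub : ∀ (G : Type) [Group G] (N : Subgroup G), N.Normal → F G → F ↥N
  sup : ∀ (G : Type) [Group G] [Finite G] (N M : Subgroup G),
    N.Normal → M.Normal → F ↥N → F ↥M → F ↥(N ⊔ M)
  star : ∀ (G : Type) [Group G] [Finite G], Group.IsSolvable G →
    ∀ A B : Subgroup G, (∀ g : G, ∃ a ∈ A, ∃ b ∈ B, g = a * b) → F ↥A → F ↥B →
      A ⊓ B ≤ rad F G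

variable {F : (G : Type) → [Group G] → Prop} (hF : IsFit F)
include hF

namespace IsFit

theorem bot (G : Type) [Group G] : F ↥(⊥ : Subgroup G) :=
  hF.iso Unit _ (MulEquiv.ofUnique) hF.unit

theorem subsingleton (G : Type) [Group G] [Subsingleton G] : F G := by
  have : Unique G := ⟨⟨1⟩, fun a => Subsingleton.elim a 1⟩
  exact hF.iso Unit _ (MulEquiv.ofUnique) hF.unit

theorem rad_mem (G : Type) [Group G] [Finite G] : (rad F G).Normal ∧ F ↥(rad F G) := by
  classical
  obtain ⟨N, hN, hmax⟩ := Set.Finite.exists_maximal (s := {N : Subgroup G | N.Normal ∧ F ↥N})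
    (Set.toFinite _) ⟨⊥, inferInstance, hF.bot G⟩
  have h : rad F G = N := by
    apply le_antisymm
    · apply sSup_le
      intro M hM
      have h1 : (N ⊔ M) ∈ {N : Subgroup G | N.Normal ∧ F ↥N} := by
        have := hN.1
        have := hM.1
        exact ⟨inferInstance, hF.sup G N M hN.1 hM.1 hN.2 hM.2⟩
      exact le_sup_right.trans (hmax h1 le_sup_left)
    · exact le_sSup hN
  rw [h]
  exact hN

theorem rad_normal (G : Type) [Group G] [Finite G] : (rad F G).Normal := (hF.rad_mem G).1

theorem rad_F (G : Type) [Group G] [Finite G] : F ↥(rad F G) := (hF.rad_mem G).2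

omit hF in
theorem le_rad {G : Type} [Group G] {N : Subgroup G} (hN : N.Normal) (h : F ↥N) :
    N ≤ rad F G := le_sSup ⟨hN, h⟩

theorem of_range {G H : Type} [Group G] [Group H] (f : H →* G) (hf : Function.Injective f)
    (h : F H) : F ↥f.range := hF.iso _ _ (MonoidHom.ofInjective hf) h

theorem to_range {G H : Type} [Group G] [Group H] (f : H →* G) (hf : Function.Injective f)
    (h : F ↥f.range) : F H := hF.iso _ _ (MonoidHom.ofInjective hf).symm h

theorem range_le_rad {G H : Type} [Group G] [Group H] (f : H →* G) (hf : Function.Injective f)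
    (hn : f.range.Normal) (h : F H) : f.range ≤ rad F G := le_rad hn (hF.of_range f hf h)

theorem of_le {G : Type} [Group G] {N M : Subgroup G} (hNM : N ≤ M)
    (hn : (N.subgroupOf M).Normal) (h : F ↥M) : F ↥N :=
  hF.iso _ _ (Subgroup.subgroupOfEquivOfLe hNM) (hF.sub _ _ hn h)

theorem of_le_rad {G : Type} [Group G] [Finite G] {N : Subgroup G} (hN : N ≤ rad F G)
    (hn : N.Normal) : F ↥N :=
  hF.of_le hN (Subgroup.Normal.subgroupOf hn _) (hF.rad_F G)

theorem iff_rad_eq_top {G : Type} [Group G] [Finite G] : F G ↔ rad F G = ⊤ := by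
  constructor
  · intro h
    exact top_le_iff.mp (le_rad inferInstance (hF.iso _ _ Subgroup.topEquiv.symm h))
  · intro h
    have := hF.rad_F G
    rw [h] at this
    exact hF.iso _ _ Subgroup.topEquiv this

/-- If `f` is injective with normal range then the preimage of the radical is in `F`. -/
theorem comap_rad_F {G H : Type} [Group G] [Finite G] [Group H] (f : H →* G)
    (hf : Function.Injective f) (hn : f.range.Normal) : F ↥((rad F G).comap f) := by
  have h1 : F ↥(((rad F G).comap f).map f) := by
    apply hF.of_le_rad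
    · exact Subgroup.map_comap_le _ _
    · have := hF.rad_normal G
      rw [Subgroup.map_comap_eq]
      infer_instance
  exact hF.iso _ _ (Subgroup.equivMapOfInjective _ f hf).symm h1

theorem comap_rad_le {G H : Type} [Group G] [Finite G] [Group H] (f : H →* G)
    (hf : Function.Injective f) (hn : f.range.Normal) : (rad F G).comap f ≤ rad F H := by
  have := hF.rad_normal G
  exact le_rad inferInstance (hF.comap_rad_F f hf hn)

theorem rad_char (G : Type) [Group G] [Finite G] : (rad F G).Characteristic := by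
  rw [Subgroup.characteristic_iff_comap_le]
  intro φ
  apply hF.comap_rad_le φ.toMonoidHom φ.injective
  have : φ.toMonoidHom.range = ⊤ := MonoidHom.range_eq_top.mpr φ.surjective
  rw [this]
  infer_instance

theorem map_rad_le {G : Type} [Group G] [Finite G] (M : Subgroup G) (hM : M.Normal) :
    (rad F ↥M).map M.subtype ≤ rad F G := by
  have := hF.rad_char ↥M
  apply le_rad inferInstance
  exact hF.iso _ _ (Subgroup.equivMapOfInjective _ M.subtype M.subtype_injective) (hF.rad_F _)

theorem prod {G H : Type} [Group G] [Group H] (hG : F G) (hH : F H) : F (G × H) := by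
  have := hF.fin _ hG
  have := hF.fin _ hH
  rw [hF.iff_rad_eq_top, eq_top_iff]
  have hinl : (MonoidHom.inl G H).range.Normal := by
    constructor
    rintro _ ⟨n, rfl⟩ ⟨a, b⟩
    exact ⟨a * n * a⁻¹, by simp⟩
  have hinr : (MonoidHom.inr G H).range.Normal := by
    constructor
    rintro _ ⟨n, rfl⟩ ⟨a, b⟩
    exact ⟨b * n * b⁻¹, by simp⟩
  have h1 := hF.range_le_rad (MonoidHom.inl G H) (fun a b h => by simpa using h) hinl hG
  have h2 := hF.range_le_rad (MonoidHom.inr G H) (fun a b h => by simpa using h) hinr hH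
  rintro ⟨a, b⟩ -
  have : ((a, b) : G × H) = MonoidHom.inl G H a * MonoidHom.inr G H b := by simp
  rw [this]
  exact mul_mem (h1 ⟨a, rfl⟩) (h2 ⟨b, rfl⟩)

theorem pi {ι : Type} [Finite ι] {G : Type} [Group G] (hG : F G) : F (ι → G) := by
  classical
  have := hF.fin _ hG
  rw [hF.iff_rad_eq_top, eq_top_iff]
  intro f _
  apply Subgroup.pi_mem_of_mulSingle_mem
  intro i
  have hn : (MonoidHom.mulSingle (fun _ : ι => G) i).range.Normal := by
    constructor
    rintro _ ⟨n, rfl⟩ g
    refine ⟨g i * n * (g i)⁻¹, ?_⟩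
    ext j
    by_cases h : j = i
    · subst h; simp
    · simp [h]
  have h1 := hF.range_le_rad (MonoidHom.mulSingle (fun _ : ι => G) i)
    (Pi.mulSingle_injective (M := fun _ : ι => G) i) hn hG
  exact h1 ⟨f i, rfl⟩

/-- The graph trick: abelian images of members are members. -/
theorem abelian_image {K Z : Type} [Group K] [Group Z] (hZ : ∀ a b : Z, a * b = b * a)
    (φ : K →* Z) (hφ : Function.Surjective φ) (hK : F K) : F Z := by
  have := hF.fin _ hK
  have : Finite Z := Finite.of_surjective φ hφ
  have hinl : (MonoidHom.inl K Z).range.Normal := by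
    constructor
    rintro _ ⟨n, rfl⟩ ⟨a, b⟩
    exact ⟨a * n * a⁻¹, by simp⟩
  have hgr : ((MonoidHom.id K).prod φ).range.Normal := by
    constructor
    rintro _ ⟨n, rfl⟩ ⟨a, b⟩
    refine ⟨a * n * a⁻¹, ?_⟩
    have h1 : φ a * φ n * (φ a)⁻¹ = b * φ n * b⁻¹ := by
      rw [hZ (φ a), hZ b, mul_inv_cancel_right, mul_inv_cancel_right]
    simp [h1]
  have hinr : (MonoidHom.inr K Z).range.Normal := by
    constructor
    rintro _ ⟨n, rfl⟩ ⟨a, b⟩
    exact ⟨b * n * b⁻¹, by simp⟩
  have h1 := hF.range_le_rad (MonoidHom.inl K Z) (fun a b h => by simpa using h) hinl hK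
  have h2 := hF.range_le_rad ((MonoidHom.id K).prod φ)
    (fun a b h => (Prod.mk.inj h).1) hgr hK
  have h3 : rad F (K × Z) = ⊤ := by
    rw [eq_top_iff]
    rintro ⟨a, b⟩ -
    obtain ⟨k, rfl⟩ := hφ b
    have : ((a, φ k) : K × Z) = MonoidHom.inl K Z (a * k⁻¹) * ((MonoidHom.id K).prod φ) k := by
      simp
    rw [this]
    exact mul_mem (h1 ⟨_, rfl⟩) (h2 ⟨_, rfl⟩)
  have h4 : F (K × Z) := hF.iff_rad_eq_top.mpr h3
  exact hF.to_range (MonoidHom.inr K Z) (fun a b h => by simpa using h) (hF.sub _ _ hinr h4)

end IsFit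

end Pool.Agent.H38.Fit
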