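import Pool.Agent.H38.FitRel

/-! # Fitting classes with the factorised radical property: decomposable groups -/

namespace Pool.Agent.H38.Fit

set_option linter.unusedVariables false
set_option linter.style.haveILetI false

open RegularWreathProduct

/-- Finite soluble groups with primes in the characteristic of the class in which elements of
prime power order for unrelated primes commute. -/
structure Dec (F : (G : Type) → [Group G] → Prop) (G : Type) [Group G] : Prop where
  fin : Finite G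
  sol : Group.IsSolvable G
  char : ∀ p : ℕ, p.Prime → p ∣ Nat.card G → F (Cp p)
  comm : ∀ p q : ℕ, p.Prime → q.Prime → ¬ Rel F p q → ∀ x y : G, (∃ a, x ^ (p ^ a) = 1) →
    (∃ b, y ^ (q ^ b) = 1) → x * y = y * x

theorem Dec.of_injective {F : (G : Type) → [Group G] → Prop} {G H : Type} [Group G] [Group H]
    (hG : Dec F G) (f : H →* G) (hf : Function.Injective f) : Dec F H where
  fin := by
    haveI := hG.fin
    exact Finite.of_injective f hf
  sol := by
    haveI := hG.sol
    exact Group.isSolvable_of_isSolvable_injective hf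
  char p hp h := hG.char p hp (h.trans (Subgroup.card_dvd_of_injective f hf))
  comm p q hp hq hpq x y hx hy := by
    apply hf
    rw [map_mul, map_mul]
    obtain ⟨a, ha⟩ := hx
    obtain ⟨b, hb⟩ := hy
    exact hG.comm p q hp hq hpq _ _ ⟨a, by rw [← map_pow, ha, map_one]⟩
      ⟨b, by rw [← map_pow, hb, map_one]⟩

theorem Dec.prod {F : (G : Type) → [Group G] → Prop} {G H : Type} [Group G] [Group H]
    (hG : Dec F G) (hH : Dec F H) : Dec F (G × H) where
  fin := by
    haveI := hG.fin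
    haveI := hH.fin
    infer_instance
  sol := by
    haveI := hG.sol
    haveI := hH.sol
    infer_instance
  char p hp h := by
    rw [Nat.card_prod, hp.dvd_mul] at h
    exact h.elim (hG.char p hp) (hH.char p hp)
  comm p q hp hq hpq x y hx hy := by
    obtain ⟨a, ha⟩ := hx
    obtain ⟨b, hb⟩ := hy
    have ha' := Prod.ext_iff.mp ha
    have hb' := Prod.ext_iff.mp hb
    exact Prod.ext (hG.comm p q hp hq hpq _ _ ⟨a, ha'.1⟩ ⟨b, hb'.1⟩)
      (hH.comm p q hp hq hpq _ _ ⟨a, ha'.2⟩ ⟨b, hb'.2⟩)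

theorem dvd_card_of_pow {G : Type} [Group G] [Finite G] {p a : ℕ} (hp : p.Prime) {x : G}
    (hx : x ^ (p ^ a) = 1) (hx1 : x ≠ 1) : p ∣ Nat.card G := by
  have h1 : orderOf x ∣ p ^ a := orderOf_dvd_of_pow_eq_one hx
  obtain ⟨k, -, hk⟩ := (Nat.dvd_prime_pow hp).mp h1
  have h2 : k ≠ 0 := by
    rintro rfl
    exact hx1 (orderOf_eq_one_iff.mp (by simpa using hk))
  exact ((dvd_pow_self p h2).trans hk.symm.dvd).trans (orderOf_dvd_natCard x)

variable {F : (G : Type) → [Group G] → Prop} (hF : IsFit F)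
include hF

namespace IsFit

theorem of_dec_aux (n : ℕ) : ∀ (G : Type) [Group G], Nat.card G = n → Dec F G → F G := by
  induction n using Nat.strong_induction_on with
  | _ n ih =>
    intro G _ hn hD
    haveI := hD.fin
    haveI := hD.sol
    by_contra hcon
    have hproper : ∀ M : Subgroup G, M.Normal → M ≠ ⊤ → M ≤ rad F G := fun M hM hMt =>
      le_rad hM (ih (Nat.card M) (hn ▸ card_lt_of_ne_top hMt) ↥M rfl
        (hD.of_injective M.subtype M.subtype_injective))
    have hrad : rad F G ≠ ⊤ := fun h => hcon (hF.iff_rad_eq_top.mpr h)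
    obtain ⟨p, hp, P, hP⟩ : ∃ (p : ℕ) (_ : Fact p.Prime) (P : Sylow p G),
        ¬ (P : Subgroup G) ≤ rad F G := by
      by_contra hc
      push Not at hc
      exact hrad (eq_top_of_sylow _ hc)
    have hpd : p ∣ Nat.card G := by
      rcases P.isPGroup'.card_eq_or_dvd with h | h
      · exfalso
        apply hP
        rw [Subgroup.card_eq_one.mp h]
        exact bot_le
      · exact h.trans (Subgroup.card_subgroup_dvd_card _)
    have hCp := hD.char p hp.1 hpd
    by_cases hall : ∀ q : ℕ, q.Prime → q ∣ Nat.card G → Rel F p q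
    · exact hcon (hF.of_wreath (hF.wreath_of_rel hCp hD.sol hall))
    push Not at hall
    obtain ⟨q, hq, hqd, hnr⟩ := hall
    haveI : Fact q.Prime := ⟨hq⟩
    have Y : Sylow q G := Classical.arbitrary _
    let S : Set G := {y : G | ∃ b, y ^ (q ^ b) = 1}
    have hCn : (Subgroup.centralizer S).Normal := by
      constructor
      intro c hc g
      rw [Subgroup.mem_centralizer_iff] at hc ⊢
      rintro y ⟨b, hb⟩
      have h1 := hc (g⁻¹ * y * g) ⟨b, by
        have : (g⁻¹ * y * g) ^ (q ^ b) = g⁻¹ * y ^ (q ^ b) * g := by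
          simpa using (conj_pow (a := g⁻¹) (b := y) (i := q ^ b))
        rw [this, hb]; simp⟩
      calc y * (g * c * g⁻¹) = g * ((g⁻¹ * y * g) * c) * g⁻¹ := by group
        _ = g * (c * (g⁻¹ * y * g)) * g⁻¹ := by rw [h1]
        _ = g * c * g⁻¹ * y := by group
    have hPC : (P : Subgroup G) ≤ Subgroup.centralizer S := by
      intro x hx
      rw [Subgroup.mem_centralizer_iff]
      intro y hy
      obtain ⟨a, ha⟩ := P.isPGroup' ⟨x, hx⟩
      have ha' : x ^ (p ^ a) = 1 := by simpa using congrArg Subtype.val ha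
      exact (hD.comm p q hp.1 hq hnr x y ⟨a, ha'⟩ hy).symm
    have hCtop : Subgroup.centralizer S = ⊤ := by
      by_contra hc
      exact hP (hPC.trans (hproper _ hCn hc))
    have hYc : ∀ y ∈ (Y : Subgroup G), ∀ g : G, y * g = g * y := by
      intro y hy g
      obtain ⟨b, hb⟩ := Y.isPGroup' ⟨y, hy⟩
      have hb' : y ^ (q ^ b) = 1 := by simpa using congrArg Subtype.val hb
      have hg : g ∈ Subgroup.centralizer S := by rw [hCtop]; trivial
      exact Subgroup.mem_centralizer_iff.mp hg y ⟨b, hb'⟩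
    haveI hYn : (Y : Subgroup G).Normal := by
      constructor
      intro y hy g
      rw [← hYc y hy g, mul_inv_cancel_right]
      exact hy
    obtain ⟨H, hH⟩ := Subgroup.exists_left_complement'_of_coprime (Y.card_coprime_index)
    have hdec : ∀ g : G, ∃ h ∈ H, ∃ y ∈ (Y : Subgroup G), h * y = g := by
      intro g
      obtain ⟨⟨h, y⟩, hhy⟩ := hH.2 g
      exact ⟨h, h.2, y, y.2, hhy⟩
    have hHn : H.Normal := by
      constructor
      intro k hk g
      obtain ⟨h, hh, y, hy, rfl⟩ := hdec g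
      have : h * y * k * (h * y)⁻¹ = h * k * h⁻¹ := by
        rw [mul_assoc h y k, hYc y hy k]; group
      rw [this]
      exact mul_mem (mul_mem hh hk) (inv_mem hh)
    have hHt : H ≠ ⊤ := by
      rintro rfl
      have h1 := hH.disjoint
      rw [top_disjoint] at h1
      have h2 : q ∣ Nat.card (Y : Subgroup G) := Y.dvd_card_of_dvd_card hqd
      rw [h1, Subgroup.card_bot] at h2
      exact hq.one_lt.ne' (Nat.dvd_one.mp h2)
    have hYt : (Y : Subgroup G) ≠ ⊤ := by
      intro hY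
      obtain ⟨x, hx⟩ := exists_prime_orderOf_dvd_card' p hpd
      have hxY : x ∈ (Y : Subgroup G) := by rw [hY]; trivial
      obtain ⟨b, hb⟩ := Y.isPGroup' ⟨x, hxY⟩
      have hb' : x ^ (q ^ b) = 1 := by simpa using congrArg Subtype.val hb
      have h1 : p ∣ q ^ b := by rw [← hx]; exact orderOf_dvd_of_pow_eq_one hb'
      have h2 := (Nat.prime_dvd_prime_iff_eq hp.1 hq).mp (hp.1.dvd_of_dvd_pow h1)
      subst h2
      exact hnr (Rel.refl hF hCp)
    apply hrad
    rw [eq_top_iff]
    intro g _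
    obtain ⟨h, hh, y, hy, rfl⟩ := hdec g
    exact mul_mem (hproper H hHn hHt hh) (hproper _ hYn hYt hy)

theorem of_dec {G : Type} [Group G] (h : Dec F G) : F G := hF.of_dec_aux _ G rfl h

omit hF in
theorem exists_normal_abelian (G : Type) [Group G] [Finite G] [Nontrivial G]
    [hs : Group.IsSolvable G] : ∃ (N : Subgroup G) (r : ℕ), r.Prime ∧ r ∣ Nat.card G ∧
      N.Normal ∧ N ≠ ⊥ ∧ (∀ a ∈ N, ∀ b ∈ N, a * b = b * a) ∧ ∀ a ∈ N, a ^ r = 1 := by
  classical
  have hex : ∃ n, derivedSeries G n = ⊥ := hs.solvable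
  obtain ⟨m, hm⟩ : ∃ m, Nat.find hex = m + 1 := by
    refine Nat.exists_eq_succ_of_ne_zero fun h => ?_
    have h1 := Nat.find_spec hex
    rw [h, derivedSeries_zero] at h1
    exact top_ne_bot h1
  have hA1 : derivedSeries G m ≠ ⊥ := Nat.find_min hex (by omega)
  have hA2 : derivedSeries G (m + 1) = ⊥ := hm ▸ Nat.find_spec hex
  rw [derivedSeries_succ] at hA2
  set A := derivedSeries G m with hA
  have hcomm : ∀ a ∈ A, ∀ b ∈ A, a * b = b * a := by
    intro a ha b hb
    have h1 := Subgroup.commutator_mem_commutator ha hb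
    rw [hA2, Subgroup.mem_bot, commutatorElement_eq_one_iff_mul_comm] at h1
    exact h1
  haveI : Nontrivial ↥A := (Subgroup.nontrivial_iff_ne_bot A).mpr hA1
  obtain ⟨r, hr, hrd⟩ := Nat.exists_prime_and_dvd
    (n := Nat.card ↥A) (Finite.one_lt_card_iff_nontrivial.mpr inferInstance).ne'
  haveI : Fact r.Prime := ⟨hr⟩
  obtain ⟨x, hx⟩ := exists_prime_orderOf_dvd_card' r hrd
  have hAn : A.Normal := by rw [hA]; infer_instance
  let N : Subgroup G :=
    { carrier := {g | g ∈ A ∧ g ^ r = 1}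
      one_mem' := ⟨one_mem _, one_pow _⟩
      mul_mem' := by
        rintro a b ⟨ha, ha1⟩ ⟨hb, hb1⟩
        refine ⟨mul_mem ha hb, ?_⟩
        rw [(show Commute a b from hcomm a ha b hb).mul_pow, ha1, hb1, one_mul]
      inv_mem' := by
        rintro a ⟨ha, ha1⟩
        exact ⟨inv_mem ha, by rw [inv_pow, ha1, inv_one]⟩ }
  refine ⟨N, r, hr, hrd.trans (Subgroup.card_subgroup_dvd_card _), ?_, ?_, ?_, ?_⟩
  · constructor
    rintro a ⟨ha, ha1⟩ g
    exact ⟨hAn.conj_mem a ha g, by rw [conj_pow, ha1]; simp⟩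
  · intro h
    have h1 : (x : G) ∈ N := ⟨x.2, by
      have := pow_orderOf_eq_one x
      rw [hx] at this
      simpa using congrArg Subtype.val this⟩
    rw [h, Subgroup.mem_bot] at h1
    have h2 : x = 1 := Subtype.ext h1
    rw [h2, orderOf_one] at hx
    exact hr.one_lt.ne hx
  · rintro a ⟨ha, _⟩ b ⟨hb, _⟩
    exact hcomm a ha b hb
  · rintro a ⟨_, ha⟩
    exact ha

/-- Elements of prime power order for an unrelated prime centralise normal elementary abelian
subgroups of members of the class. -/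
theorem centralises {G : Type} [Group G] (hG : F G) {N : Subgroup G} (hN : N.Normal) {r : ℕ}
    (hr : r.Prime) (hNc : ∀ a ∈ N, ∀ b ∈ N, a * b = b * a) (hNr : ∀ a ∈ N, a ^ r = 1) {s : ℕ}
    (hs : s.Prime) (hnr : ¬ Rel F s r) {z : G} {a : ℕ} (hz : z ^ (s ^ a) = 1) {n : G}
    (hn : n ∈ N) : z * n = n * z := by
  by_contra hcon
  haveI : Fact s.Prime := ⟨hs⟩
  haveI : Fact r.Prime := ⟨hr⟩
  haveI := hF.fin _ hG
  haveI : Group.IsSolvable G := hF.sol _ hG
  have hz1 : z ≠ 1 := by rintro rfl; simp at hcon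
  have hCs : F (Cp s) := hF.Cp_of_dvd hG (dvd_card_of_pow hs hz hz1)
  haveI := finite_Cp s
  haveI := isSolvable_wreath (K := Cp s) (Q := G)
  let rh : Cp s ≀ᵣ G →* G := rightHom
  have hA : IsPGroup s ↥((Subgroup.zpowers z).comap rh) := by
    rintro ⟨t, ht⟩
    refine ⟨a + 1, ?_⟩
    apply Subtype.ext
    obtain ⟨k, hk⟩ := ht
    have hk' : z ^ k = t.right := hk
    have h1 : rh (t ^ (s ^ a)) = 1 := by
      rw [map_pow]
      change t.right ^ (s ^ a) = 1
      rw [← hk', ← zpow_natCast, ← zpow_mul, mul_comm, zpow_mul, zpow_natCast, hz, one_zpow]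
    have h2 : t ^ (s ^ a) ∈ (base (Cp s) G).range := by
      rw [base_range]; exact h1
    obtain ⟨f, hf⟩ := h2
    change t ^ (s ^ (a + 1)) = 1
    rw [pow_succ, pow_mul, ← hf, ← map_pow]
    have h3 : f ^ s = 1 := by
      ext i
      have := pow_card_eq_one' (x := f i)
      rw [card_Cp] at this
      exact this
    rw [h3, map_one]
  have hstar := hF.star (Cp s ≀ᵣ G) inferInstance ((Subgroup.zpowers z).comap rh)
    (inl : G →* Cp s ≀ᵣ G).range (by
      rintro ⟨f, g⟩
      refine ⟨base (Cp s) G f, ?_, inl g, ⟨g, rfl⟩, mk_eq f g⟩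
      change (1 : G) ∈ Subgroup.zpowers z
      exact one_mem _) (hF.pgroup hCs hA) (hF.of_range _ inl_injective hG)
  have hzR : inl z ∈ rad F (Cp s ≀ᵣ G) :=
    hstar ⟨Subgroup.mem_zpowers z, ⟨z, rfl⟩⟩
  have hRn := hF.rad_normal (Cp s ≀ᵣ G)
  set m := n * z * n⁻¹ * z⁻¹ with hm
  have hmN : m ∈ N := by
    have : m = n * (z * n⁻¹ * z⁻¹) := by rw [hm]; group
    rw [this]
    exact mul_mem hn (hN.conj_mem _ (inv_mem hn) z)
  have hm1 : m ≠ 1 := by
    intro h
    apply hcon
    rw [hm, mul_inv_eq_one, mul_inv_eq_iff_eq_mul] at h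
    exact h.symm
  have hmR : inl m ∈ rad F (Cp s ≀ᵣ G) := by
    rw [hm, map_mul, map_mul, map_mul, map_inv, map_inv]
    exact mul_mem (hRn.conj_mem _ hzR _) (inv_mem hzR)
  have hbase := hF.range_le_rad (base (Cp s) G) base_injective base_normal (hF.pi hCs)
  set X := (Subgroup.zpowers m).comap rh with hX
  have hXR : X ≤ rad F (Cp s ≀ᵣ G) := by
    rintro ⟨f, g⟩ ht
    obtain ⟨k, hk⟩ := ht
    have hk' : m ^ k = g := hk
    rw [mk_eq]
    refine mul_mem (hbase ⟨f, rfl⟩) ?_
    rw [← hk', map_zpow]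
    exact zpow_mem hmR k
  have hXN : X ≤ N.comap rh := by
    intro t ht
    have : Subgroup.zpowers m ≤ N := by rwa [Subgroup.zpowers_le]
    exact this ht
  haveI hYn : (N.comap rh ⊓ rad F (Cp s ≀ᵣ G)).Normal := inferInstance
  have hR1 : F ↥(N.comap rh ⊓ rad F (Cp s ≀ᵣ G)) := hF.of_le_rad inf_le_right hYn
  have hXF : F ↥X := by
    refine hF.of_le (le_inf hXN hXR) ?_ hR1
    constructor
    rintro ⟨x, hx1⟩ hx2 ⟨g, hg⟩
    change g * x * g⁻¹ ∈ X
    have hx3 : rh x ∈ Subgroup.zpowers m := hx2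
    change rh (g * x * g⁻¹) ∈ Subgroup.zpowers m
    have h1 : rh g ∈ N := hg.1
    have h2 : rh x ∈ N := hx1.1
    rw [map_mul, map_mul, map_inv, hNc _ h1 _ h2, mul_inv_cancel_right]
    exact hx3
  let ψ : ↥X →* Cp s ≀ᵣ ↥(Subgroup.zpowers m) :=
    { toFun := fun t => ⟨fun i => t.1.left (i : G), ⟨t.1.right, t.2⟩⟩
      map_one' := rfl
      map_mul' := fun t u => rfl }
  have hψ : Function.Surjective ψ := by
    classical
    rintro ⟨f, ⟨g, hg⟩⟩
    refine ⟨⟨⟨fun x => if h : x ∈ Subgroup.zpowers m then f ⟨x, h⟩ else 1, g⟩, hg⟩, ?_⟩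
    apply RegularWreathProduct.ext
    · funext i
      change (if h : (i : G) ∈ Subgroup.zpowers m then f ⟨i, h⟩ else 1) = f i
      rw [dif_pos i.2]
    · rfl
  have h4 := hF.image ψ hψ hXF
  have h5 : Nat.card ↥(Subgroup.zpowers m) = r := by
    rw [Nat.card_zpowers]
    exact orderOf_eq_prime (hNr m hmN) hm1
  have h6 : Rel F r s := hF.iso _ _
    (RegularWreathProduct.congr (MulEquiv.refl (Cp s)) (mulEquivOfPrimeCardEq h5 (card_Cp r))) h4
  exact hnr (Rel.symm hF h6)

omit hF in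
theorem comm_aux {G : Type} [Group G] {N : Subgroup G} {r p a : ℕ} (hr : r.Prime) (hp : p.Prime)
    (hpr : p ≠ r) (hNr : ∀ a ∈ N, a ^ r = 1) {x y : G} (hx : x ^ (p ^ a) = 1)
    (hxN : ∀ n ∈ N, x * n = n * x) (hxy : (y * x)⁻¹ * (x * y) ∈ N) : x * y = y * x := by
  set n := (y * x)⁻¹ * (x * y) with hn
  have h1 : x * n = y⁻¹ * x * y := by rw [hn]; group
  have h2 : (x * n) ^ (p ^ a) = 1 := by
    rw [h1]
    have : (y⁻¹ * x * y) ^ (p ^ a) = y⁻¹ * x ^ (p ^ a) * y := by
      simpa using (conj_pow (a := y⁻¹) (b := x) (i := p ^ a))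
    rw [this, hx]; simp
  rw [(show Commute x n from hxN n hxy).mul_pow, hx, one_mul] at h2
  have h3 := hNr n hxy
  have h4 : n = 1 := by
    have hcop : Nat.Coprime (p ^ a) r :=
      Nat.Coprime.pow_left a ((Nat.coprime_primes hp hr).mpr hpr)
    have h5 : orderOf n ∣ Nat.gcd (p ^ a) r :=
      Nat.dvd_gcd (orderOf_dvd_of_pow_eq_one h2) (orderOf_dvd_of_pow_eq_one h3)
    rw [hcop] at h5
    exact orderOf_eq_one_iff.mp (Nat.dvd_one.mp h5)
  rw [hn, inv_mul_eq_one] at h4
  exact h4.symm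

theorem dec_aux (n : ℕ) : ∀ (G : Type) [Group G], Nat.card G = n → F G → Dec F G := by
  induction n using Nat.strong_induction_on with
  | _ n ih =>
    intro G _ hn hG
    haveI := hF.fin _ hG
    haveI : Group.IsSolvable G := hF.sol _ hG
    refine ⟨inferInstance, inferInstance, fun p hp h => ?_, ?_⟩
    · haveI : Fact p.Prime := ⟨hp⟩
      exact hF.Cp_of_dvd hG h
    intro p q hp hq hnr x y hx hy
    by_cases hx1 : x = 1
    · rw [hx1]; simp
    by_cases hy1 : y = 1
    · rw [hy1]; simp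
    haveI : Fact p.Prime := ⟨hp⟩
    haveI : Fact q.Prime := ⟨hq⟩
    haveI : Nontrivial G := ⟨⟨x, 1, hx1⟩⟩
    obtain ⟨N, r, hr, hrd, hNn, hNb, hNc, hNr⟩ := exists_normal_abelian G
    haveI : Fact r.Prime := ⟨hr⟩
    haveI := hNn
    obtain ⟨a, ha⟩ := hx
    obtain ⟨b, hb⟩ := hy
    have hCp : F (Cp p) := hF.Cp_of_dvd hG (dvd_card_of_pow hp ha hx1)
    have hCq : F (Cp q) := hF.Cp_of_dvd hG (dvd_card_of_pow hq hb hy1)
    have hQ : F (G ⧸ N) := hF.image (QuotientGroup.mk' N) (QuotientGroup.mk'_surjective N) hG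
    have hlt : Nat.card (G ⧸ N) < n := by
      have h1 := Subgroup.card_eq_card_quotient_mul_card_subgroup N
      have h2 : 1 < Nat.card N := by
        rw [Finite.one_lt_card_iff_nontrivial]
        exact (Subgroup.nontrivial_iff_ne_bot N).mpr hNb
      have h3 : 0 < Nat.card (G ⧸ N) := Nat.card_pos
      rw [← hn, h1]
      nlinarith
    have hD := ih _ hlt (G ⧸ N) rfl hQ
    have hcm : (x : G ⧸ N) * (y : G ⧸ N) = (y : G ⧸ N) * (x : G ⧸ N) :=
      hD.comm p q hp hq hnr _ _ ⟨a, by rw [← QuotientGroup.mk_pow, ha]; rfl⟩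
        ⟨b, by rw [← QuotientGroup.mk_pow, hb]; rfl⟩
    rw [← QuotientGroup.mk_mul, ← QuotientGroup.mk_mul] at hcm
    by_cases h1 : Rel F p r
    · by_cases h2 : Rel F q r
      · exact absurd (Rel.trans hF h1 (Rel.symm hF h2)) hnr
      · have hqr : q ≠ r := by
          rintro rfl
          exact h2 (Rel.refl hF hCq)
        exact (comm_aux hr hq hqr hNr hb
          (fun m hm => hF.centralises hG hNn hr hNc hNr hq h2 hb hm)
          (QuotientGroup.eq.mp hcm)).symm
    · have hpr : p ≠ r := by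
        rintro rfl
        exact h1 (Rel.refl hF hCp)
      exact comm_aux hr hp hpr hNr ha
        (fun m hm => hF.centralises hG hNn hr hNc hNr hp h1 ha hm)
        (QuotientGroup.eq.mp hcm.symm)

theorem dec {G : Type} [Group G] (h : F G) : Dec F G := hF.dec_aux _ G rfl h

/-- The class is closed under subdirect products. -/
theorem subdirect {G : Type} [Group G] (N M : Subgroup G) [N.Normal] [M.Normal]
    (hN : F (G ⧸ N)) (hM : F (G ⧸ M)) : F (G ⧸ (N ⊓ M)) := by
  let φ : G ⧸ (N ⊓ M) →* (G ⧸ N) × (G ⧸ M) :=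
    (QuotientGroup.map (N ⊓ M) N (MonoidHom.id G) inf_le_left).prod
      (QuotientGroup.map (N ⊓ M) M (MonoidHom.id G) inf_le_right)
  have hφ : Function.Injective φ := by
    rw [injective_iff_map_eq_one]
    intro x
    induction x using QuotientGroup.induction_on with
    | H g =>
      intro h
      have h1 := Prod.ext_iff.mp h
      have h2 : (g : G ⧸ N) = 1 := h1.1
      have h3 : (g : G ⧸ M) = 1 := h1.2
      rw [QuotientGroup.eq_one_iff] at h2 h3 ⊢
      exact ⟨h2, h3⟩
  exact hF.of_dec (((hF.dec hN).prod (hF.dec hM)).of_injective φ hφ)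

end IsFit

end Pool.Agent.H38.Fit
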