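import Pool.Agent.H38.FitBasic

/-! # Fitting classes with the factorised radical property: p-groups, quotients, wreath products -/

namespace Pool.Agent.H38.Fit

set_option linter.unusedVariables false
set_option linter.style.haveILetI false

open RegularWreathProduct

/-- The multiplicative group of order `p`. -/
abbrev Cp (p : ℕ) : Type := Multiplicative (ZMod p)

theorem card_Cp (p : ℕ) : Nat.card (Cp p) = p := by
  rw [Nat.card_congr Multiplicative.toAdd, Nat.card_zmod]

theorem finite_Cp (p : ℕ) [hp : Fact p.Prime] : Finite (Cp p) :=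
  Nat.finite_of_card_ne_zero (by rw [card_Cp]; exact hp.1.ne_zero)

theorem isPGroup_Cp (p : ℕ) [hp : Fact p.Prime] : IsPGroup p (Cp p) := by
  haveI := finite_Cp p
  exact IsPGroup.iff_card.mpr ⟨1, by rw [card_Cp, pow_one]⟩

theorem nontrivial_Cp (p : ℕ) [hp : Fact p.Prime] : Nontrivial (Cp p) := by
  haveI := finite_Cp p
  rw [← Finite.one_lt_card_iff_nontrivial, card_Cp]
  exact hp.1.one_lt

theorem eq_top_of_sylow {G : Type} [Group G] [Finite G] (H : Subgroup G)
    (h : ∀ (p : ℕ) [Fact p.Prime] (P : Sylow p G), (P : Subgroup G) ≤ H) : H = ⊤ := by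
  by_contra hne
  have h1 : H.index ≠ 1 := fun h1 => hne (Subgroup.index_eq_one.mp h1)
  obtain ⟨p, hp, hpd⟩ := Nat.exists_prime_and_dvd h1
  haveI : Fact p.Prime := ⟨hp⟩
  have P : Sylow p G := Classical.arbitrary _
  exact P.not_dvd_index (hpd.trans (Subgroup.index_dvd_of_le (h p P)))

theorem card_lt_of_ne_top {G : Type} [Group G] [Finite G] {H : Subgroup G} (h : H ≠ ⊤) :
    Nat.card H < Nat.card G := by
  obtain ⟨x, hx⟩ : ∃ x, x ∉ H := by
    by_contra hcon
    push Not at hcon
    exact h (eq_top_iff.mpr fun x _ => hcon x)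
  exact Finite.card_subtype_lt hx

/-! ### Generalities on regular wreath products -/

section W

variable {K Q : Type} [Group K] [Group Q]

/-- The embedding of the base group. -/
def base (K Q : Type) [Group K] [Group Q] : (Q → K) →* K ≀ᵣ Q where
  toFun f := ⟨f, 1⟩
  map_one' := rfl
  map_mul' f g := by ext <;> simp

theorem base_injective : Function.Injective (base K Q) := by
  intro f g h
  exact congrArg RegularWreathProduct.left h

theorem base_range : (base K Q).range = (rightHom : K ≀ᵣ Q →* Q).ker := by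
  ext t
  rw [MonoidHom.mem_ker]
  constructor
  · rintro ⟨f, rfl⟩; rfl
  · intro h
    exact ⟨t.left, RegularWreathProduct.ext rfl h.symm⟩

theorem base_normal : (base K Q).range.Normal := by
  rw [base_range]; infer_instance

theorem inl_injective : Function.Injective (inl : Q →* K ≀ᵣ Q) := by
  intro a b h
  exact congrArg RegularWreathProduct.right h

/-- Functoriality in the base. -/
def mapL {K' : Type} [Group K'] (φ : K' →* K) (Q : Type) [Group Q] : K' ≀ᵣ Q →* K ≀ᵣ Q where
  toFun t := ⟨fun q => φ (t.left q), t.right⟩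
  map_one' := by ext <;> simp
  map_mul' s t := by ext <;> simp

theorem mapL_injective {K' : Type} [Group K'] {φ : K' →* K} (h : Function.Injective φ) :
    Function.Injective (mapL φ Q) := by
  intro s t hst
  ext q
  · exact h (congrFun (congrArg RegularWreathProduct.left hst) q)
  · have h2 : (mapL φ Q s).right = (mapL φ Q t).right := by rw [hst]
    exact h2

theorem mk_eq (f : Q → K) (q : Q) : (⟨f, q⟩ : K ≀ᵣ Q) = base K Q f * inl q := by
  ext <;> simp [base]

theorem exists_base_mem {R : Subgroup (K ≀ᵣ Q)} (hR : R.Normal) {s : Q} (hs : s ≠ 1)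
    (hsR : inl s ∈ R) (k : K) : ∃ f : Q → K, base K Q f ∈ R ∧ f 1 = k := by
  classical
  let f0 : Q → K := Pi.mulSingle 1 k
  refine ⟨fun x => f0 x * (f0 (s⁻¹ * x))⁻¹, ?_, ?_⟩
  · have h1 : base K Q f0 * inl s * (base K Q f0)⁻¹ * (inl s)⁻¹ ∈ R :=
      mul_mem (hR.conj_mem _ hsR _) (inv_mem hsR)
    have h2 : base K Q (fun x => f0 x * (f0 (s⁻¹ * x))⁻¹) =
        base K Q f0 * inl s * (base K Q f0)⁻¹ * (inl s)⁻¹ := by
      ext x
      · simp [base]
      · simp [base]
    rw [h2]
    exact h1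
  · simp [f0, hs]

omit [Group Q] in
theorem isSolvable_fun [hK : Group.IsSolvable K] : Group.IsSolvable (Q → K) := by
  obtain ⟨n, hn⟩ := hK.solvable
  refine ⟨n, ?_⟩
  rw [eq_bot_iff]
  intro f hf
  rw [Subgroup.mem_bot]
  ext q
  have h1 := map_derivedSeries_le_derivedSeries (Pi.evalMonoidHom (fun _ : Q => K) q) n
  rw [hn] at h1
  exact Subgroup.mem_bot.mp (h1 ⟨f, hf, rfl⟩)

theorem isSolvable_wreath [hK : Group.IsSolvable K] [hQ : Group.IsSolvable Q] :
    Group.IsSolvable (K ≀ᵣ Q) := by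
  haveI := isSolvable_fun (K := K) (Q := Q)
  exact Group.isSolvable_of_ker_le_range (base K Q) (rightHom : K ≀ᵣ Q →* Q)
    (by rw [base_range])

theorem isPGroup_wreath {p : ℕ} [Fact p.Prime] [Finite K] [Finite Q] (hK : IsPGroup p K)
    (hQ : IsPGroup p Q) : IsPGroup p (K ≀ᵣ Q) := by
  obtain ⟨a, ha⟩ := IsPGroup.iff_card.mp hK
  obtain ⟨b, hb⟩ := IsPGroup.iff_card.mp hQ
  refine IsPGroup.iff_card.mpr ⟨a * Nat.card Q + b, ?_⟩
  rw [RegularWreathProduct.card, ha, pow_add, pow_mul, ← hb]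

end W

variable {F : (G : Type) → [Group G] → Prop} (hF : IsFit F)
include hF

namespace IsFit

theorem of_sylow {G : Type} [Group G] [Finite G]
    (h : ∀ (p : ℕ) [Fact p.Prime] (P : Sylow p G), (P : Subgroup G) ≤ rad F G) : F G :=
  hF.iff_rad_eq_top.mpr (eq_top_of_sylow _ h)

theorem p_le_rad_aux {p : ℕ} [Fact p.Prime] (n : ℕ) : ∀ (P : Type) [Group P] [Finite P],
    Nat.card P = n → IsPGroup p P → ∀ H : Subgroup P, F ↥H → H ≤ rad F P := by
  induction n using Nat.strong_induction_on with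
  | _ n ih =>
    intro P _ _ hn hP H hH
    rcases eq_top_or_exists_le_coatom H with h | ⟨M, hM, hHM⟩
    · rw [h] at hH ⊢
      exact le_rad inferInstance hH
    · haveI := hP.isNilpotent
      have hMn : M.Normal := Subgroup.NormalizerCondition.normal_of_coatom M
        Group.normalizerCondition_of_isNilpotent hM
      have hcard := card_lt_of_ne_top hM.1
      have h1 := ih (Nat.card M) (hn ▸ hcard) ↥M rfl (hP.to_subgroup M) (H.subgroupOf M)
        (hF.iso _ _ (Subgroup.subgroupOfEquivOfLe hHM).symm hH)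
      have h2 := Subgroup.map_mono (f := M.subtype) h1
      rw [Subgroup.subgroupOf_map_subtype, inf_eq_left.mpr hHM] at h2
      exact h2.trans (hF.map_rad_le M hMn)

theorem p_le_rad {p : ℕ} [Fact p.Prime] {P : Type} [Group P] [Finite P] (hP : IsPGroup p P)
    {H : Subgroup P} (hH : F ↥H) : H ≤ rad F P := hF.p_le_rad_aux _ P rfl hP H hH

theorem Cp_of_dvd_aux {p : ℕ} [hp : Fact p.Prime] (n : ℕ) : ∀ (G : Type) [Group G],
    Nat.card G = n → F G → p ∣ n → F (Cp p) := by
  induction n using Nat.strong_induction_on with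
  | _ n ih =>
    intro G _ hn hG hpn
    haveI := hF.fin _ hG
    haveI : Group.IsSolvable G := hF.sol _ hG
    haveI : Nontrivial G := by
      rw [← Finite.one_lt_card_iff_nontrivial, hn]
      have : n ≠ 0 := by rw [← hn]; exact Nat.card_pos.ne'
      exact hp.1.one_lt.trans_le (Nat.le_of_dvd (Nat.pos_of_ne_zero this) hpn)
    have hab : F (Abelianization G) :=
      hF.abelian_image mul_comm Abelianization.of (QuotientGroup.mk_surjective) hG
    haveI := hF.fin _ hab
    have hcard : Nat.card G = Nat.card (Abelianization G) * Nat.card (commutator G) :=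
      Subgroup.card_eq_card_quotient_mul_card_subgroup _
    rw [← hn, hcard, hp.1.dvd_mul] at hpn
    rcases hpn with h | h
    · obtain ⟨x, hx⟩ := exists_prime_orderOf_dvd_card' p h
      have h1 : F ↥(Subgroup.zpowers x) := hF.sub _ _ inferInstance hab
      exact hF.iso _ _ (mulEquivOfPrimeCardEq (p := p) (by rw [Nat.card_zpowers, hx])
        (card_Cp p)) h1
    · have hlt : Nat.card (commutator G) < n := by
        rw [← hn]
        exact card_lt_of_ne_top (Group.IsSolvable.commutator_lt_top_of_nontrivial G).ne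
      exact ih _ hlt ↥(commutator G) rfl (hF.sub _ _ inferInstance hG) h

theorem Cp_of_dvd {p : ℕ} [hp : Fact p.Prime] {G : Type} [Group G] (hG : F G)
    (h : p ∣ Nat.card G) : F (Cp p) := hF.Cp_of_dvd_aux _ G rfl hG h

theorem comm_pgroup {p : ℕ} [hp : Fact p.Prime] (hCp : F (Cp p)) (C : Type) [Group C]
    (hcomm : ∀ a b : C, a * b = b * a) [Finite C] (hC : IsPGroup p C) : F C := by
  haveI := finite_Cp p
  haveI := nontrivial_Cp p
  have hT : IsPGroup p (C ≀ᵣ Cp p) := isPGroup_wreath hC (isPGroup_Cp p)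
  have h1 : (inl : Cp p →* C ≀ᵣ Cp p).range ≤ rad F (C ≀ᵣ Cp p) :=
    hF.p_le_rad hT (hF.of_range _ inl_injective hCp)
  obtain ⟨s, hs⟩ := exists_ne (1 : Cp p)
  have h2 := hF.comap_rad_F (base C (Cp p)) base_injective base_normal
  let φ : ↥((rad F (C ≀ᵣ Cp p)).comap (base C (Cp p))) →* C :=
    (Pi.evalMonoidHom (fun _ : Cp p => C) 1).comp (Subgroup.subtype _)
  apply hF.abelian_image hcomm φ ?_ h2
  intro c
  obtain ⟨f, hf, hf1⟩ := exists_base_mem (hF.rad_normal _) hs (h1 ⟨s, rfl⟩) c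
  exact ⟨⟨f, hf⟩, hf1⟩

theorem pgroup {p : ℕ} [hp : Fact p.Prime] (hCp : F (Cp p)) {P : Type} [Group P]
    [Finite P] (hP : IsPGroup p P) : F P := by
  rw [hF.iff_rad_eq_top, eq_top_iff]
  intro g _
  have h1 : F ↥(Subgroup.zpowers g) := hF.comm_pgroup hCp _ (by
      rintro ⟨_, m, rfl⟩ ⟨_, n, rfl⟩
      exact Subtype.ext (by simp [← zpow_add, add_comm])) (hP.to_subgroup _)
  exact hF.p_le_rad hP h1 (Subgroup.mem_zpowers g)

/-- Closure under homomorphic images. -/
theorem image {G H : Type} [Group G] [Group H] (f : G →* H) (hf : Function.Surjective f)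
    (hG : F G) : F H := by
  haveI := hF.fin _ hG
  haveI : Finite H := Finite.of_surjective f hf
  haveI : Group.IsSolvable G := hF.sol _ hG
  haveI : Group.IsSolvable H := Group.isSolvable_of_surjective hf
  apply hF.of_sylow
  intro p hp P
  -- the Sylow subgroup is in the class
  have hP : F ↥(P : Subgroup H) := by
    rcases P.isPGroup'.card_eq_or_dvd with h | h
    · haveI : Subsingleton ↥(P : Subgroup H) := (Nat.card_eq_one_iff_unique.mp h).1
      exact hF.subsingleton _
    · have h1 : p ∣ Nat.card G := by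
        refine (h.trans (Subgroup.card_subgroup_dvd_card _)).trans ?_
        exact Subgroup.card_dvd_of_surjective f hf
      exact hF.pgroup (hF.Cp_of_dvd hG h1) P.isPGroup'
  let gr : G →* H × G := f.prod (MonoidHom.id G)
  have hgr : Function.Injective gr := fun a b h => (Prod.mk.inj h).2
  let inP : ↥(P : Subgroup H) × G →* H × G := (P : Subgroup H).subtype.prodMap (MonoidHom.id G)
  have hinP : Function.Injective inP := by
    rintro ⟨a, b⟩ ⟨c, d⟩ h
    have h1 := Prod.mk.inj h
    exact Prod.ext (Subtype.ext h1.1) h1.2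
  have hinr : (MonoidHom.inr H G).range.Normal := by
    constructor
    rintro _ ⟨n, rfl⟩ ⟨a, b⟩
    exact ⟨b * n * b⁻¹, by simp⟩
  have hinl : (MonoidHom.inl H G).range.Normal := by
    constructor
    rintro _ ⟨n, rfl⟩ ⟨a, b⟩
    exact ⟨a * n * a⁻¹, by simp⟩
  have hstar := hF.star (H × G) inferInstance gr.range inP.range (by
    rintro ⟨h, g⟩
    obtain ⟨y, rfl⟩ := hf h
    exact ⟨_, ⟨y, rfl⟩, _, ⟨(1, y⁻¹ * g), rfl⟩, by simp [gr, inP]⟩)
    (hF.of_range gr hgr hG) (hF.of_range inP hinP (hF.prod hP hG))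
  have hGr : (MonoidHom.inr H G).range ≤ rad F (H × G) :=
    hF.range_le_rad _ (fun a b h => by simpa using h) hinr hG
  have hcl := hF.comap_rad_le (MonoidHom.inl H G) (fun a b h => by simpa using h) hinl
  intro x hx
  apply hcl
  rw [Subgroup.mem_comap]
  obtain ⟨y, rfl⟩ := hf x
  have h1 : ((f y, y) : H × G) ∈ rad F (H × G) :=
    hstar ⟨⟨y, rfl⟩, ⟨(⟨f y, hx⟩, y), rfl⟩⟩
  have h2 : ((1, y) : H × G) ∈ rad F (H × G) := hGr ⟨y, rfl⟩
  have h3 : MonoidHom.inl H G (f y) = ((f y, y) : H × G) * ((1, y) : H × G)⁻¹ := by simp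
  rw [h3]
  exact mul_mem h1 (inv_mem h2)

/-- If the top group of a wreath product is in the radical, the wreath product is in the class. -/
theorem wreath_of_inl {K Q : Type} [Group K] [Group Q] [Finite K] [Finite Q] [Nontrivial Q]
    (h : (inl : Q →* K ≀ᵣ Q).range ≤ rad F (K ≀ᵣ Q)) : F (K ≀ᵣ Q) := by
  obtain ⟨s, hs⟩ := exists_ne (1 : Q)
  have h2 := hF.comap_rad_F (base K Q) base_injective base_normal
  let φ : ↥((rad F (K ≀ᵣ Q)).comap (base K Q)) →* K :=
    (Pi.evalMonoidHom (fun _ : Q => K) 1).comp (Subgroup.subtype _)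
  have hK : F K := by
    apply hF.image φ ?_ h2
    intro c
    obtain ⟨f, hf, hf1⟩ := exists_base_mem (hF.rad_normal _) hs (h ⟨s, rfl⟩) c
    exact ⟨⟨f, hf⟩, hf1⟩
  have h3 := hF.range_le_rad (base K Q) base_injective base_normal (hF.pi hK)
  rw [hF.iff_rad_eq_top, eq_top_iff]
  rintro ⟨f, q⟩ -
  rw [mk_eq]
  exact mul_mem (h3 ⟨f, rfl⟩) (h ⟨q, rfl⟩)

theorem of_wreath {K Q : Type} [Group K] [Group Q] (h : F (K ≀ᵣ Q)) : F K := by
  have h1 : F (Q → K) := hF.to_range (base K Q) base_injective (hF.sub _ _ base_normal h)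
  exact hF.image (Pi.evalMonoidHom (fun _ : Q => K) 1) (fun k => ⟨fun _ => k, rfl⟩) h1

/-- The wreath product is in the class if the base is a product of two subgroups whose wreath
products are in the class. -/
theorem wreath_mul {K Q : Type} [Group K] [Group Q] [Finite K] [Finite Q] [Nontrivial Q]
    [Group.IsSolvable K] [Group.IsSolvable Q] (A B : Subgroup K)
    (hAB : ∀ k : K, ∃ a ∈ A, ∃ b ∈ B, k = a * b) (hA : F (↥A ≀ᵣ Q)) (hB : F (↥B ≀ᵣ Q)) :
    F (K ≀ᵣ Q) := by
  haveI := isSolvable_wreath (K := K) (Q := Q)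
  have hs := hF.star (K ≀ᵣ Q) inferInstance (mapL A.subtype Q).range (mapL B.subtype Q).range (by
    rintro ⟨f, q⟩
    choose a ha b hb hab using fun x => hAB (f x)
    refine ⟨_, ⟨⟨fun x => ⟨a x, ha x⟩, 1⟩, rfl⟩, _, ⟨⟨fun x => ⟨b x, hb x⟩, q⟩, rfl⟩, ?_⟩
    ext x
    · simp [mapL, hab]
    · simp [mapL])
    (hF.of_range _ (mapL_injective A.subtype_injective) hA)
    (hF.of_range _ (mapL_injective B.subtype_injective) hB)
  apply hF.wreath_of_inl
  rintro _ ⟨q, rfl⟩
  refine hs ⟨⟨inl q, ?_⟩, ⟨inl q, ?_⟩⟩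
  · ext x <;> simp [mapL]
  · ext x <;> simp [mapL]

end IsFit

end Pool.Agent.H38.Fit
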