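import Pool.Agent.H38.FitP

/-! # Fitting classes with the factorised radical property: the equivalence relation on primes -/

namespace Pool.Agent.H38.Fit

set_option linter.unusedVariables false
set_option linter.style.haveILetI false

open RegularWreathProduct

/-- `Rel F p q`: the wreath product of the group of order `q` by the group of order `p` is in the
class. -/
def Rel (F : (G : Type) → [Group G] → Prop) (p q : ℕ) : Prop := F (Cp q ≀ᵣ Cp p)

variable {F : (G : Type) → [Group G] → Prop} (hF : IsFit F)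
include hF

namespace IsFit

theorem Rel.top {p q : ℕ} (h : Rel F p q) : F (Cp p) :=
  hF.image rightHom (fun x => ⟨inl x, rfl⟩) h

theorem Rel.bot {p q : ℕ} (h : Rel F p q) : F (Cp q) := hF.of_wreath h

/-- Wreath products of `p`-groups by the group of order `p`. -/
theorem wreath_pgroup {p : ℕ} [hp : Fact p.Prime] (hCp : F (Cp p)) {P : Type} [Group P]
    [Finite P] (hP : IsPGroup p P) : F (P ≀ᵣ Cp p) := by
  haveI := finite_Cp p
  exact hF.pgroup hCp (isPGroup_wreath hP (isPGroup_Cp p))

theorem wreath_congr {K K' Q : Type} [Group K] [Group K'] [Group Q] (e : K ≃* K')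
    (h : F (K ≀ᵣ Q)) : F (K' ≀ᵣ Q) :=
  hF.iso _ _ (RegularWreathProduct.congr e (MulEquiv.refl Q)) h

/-- If `P` is a `p`-group and `Q` has `Q wr C_p` in the class then `(P wr Q) wr C_p` is in the
class. -/
theorem wreath_wreath {p : ℕ} [hp : Fact p.Prime] (hCp : F (Cp p)) {P : Type} [Group P]
    [Finite P] (hP : IsPGroup p P) {Q : Type} [Group Q] (hQ : F (Q ≀ᵣ Cp p)) :
    F ((P ≀ᵣ Q) ≀ᵣ Cp p) := by
  haveI := finite_Cp p
  haveI := nontrivial_Cp p
  have hQ1 : F Q := hF.of_wreath hQ
  haveI := hF.fin _ hQ1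
  haveI : Group.IsSolvable Q := hF.sol _ hQ1
  haveI : Group.IsSolvable P := by
    haveI := hP.isNilpotent
    infer_instance
  haveI : Group.IsSolvable (Cp p) := inferInstance
  haveI := isSolvable_wreath (K := P) (Q := Q)
  apply hF.wreath_mul (base P Q).range (inl : Q →* P ≀ᵣ Q).range
  · rintro ⟨f, q⟩
    exact ⟨_, ⟨f, rfl⟩, _, ⟨q, rfl⟩, mk_eq f q⟩
  · apply hF.wreath_pgroup hCp
    obtain ⟨n, hn⟩ := IsPGroup.iff_card.mp hP
    have h1 : IsPGroup p (Q → P) :=
      IsPGroup.iff_card.mpr ⟨n * Nat.card Q, by rw [Nat.card_fun, hn, pow_mul]⟩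
    exact h1.of_surjective (base P Q).rangeRestrict (base P Q).rangeRestrict_surjective
  · exact hF.wreath_congr (MonoidHom.ofInjective inl_injective) hQ

theorem Rel.symm {p q : ℕ} [hp : Fact p.Prime] [hq : Fact q.Prime] (h : Rel F p q) :
    Rel F q p := by
  haveI := finite_Cp p
  exact hF.of_wreath (hF.wreath_wreath (Rel.top hF h) (isPGroup_Cp p) (Q := Cp q) h)

theorem Rel.refl {p : ℕ} [hp : Fact p.Prime] (h : F (Cp p)) : Rel F p p := by
  haveI := finite_Cp p
  exact hF.wreath_pgroup h (isPGroup_Cp p)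

theorem Rel.wreath_qgroup {p q : ℕ} [hp : Fact p.Prime] [hq : Fact q.Prime] (h : Rel F p q)
    {Y : Type} [Group Y] [Finite Y] (hY : IsPGroup q Y) : F (Y ≀ᵣ Cp p) :=
  hF.of_wreath (hF.wreath_wreath (Rel.bot hF h) hY (Q := Cp p) (Rel.symm hF h))

/-- A finite soluble group all of whose primes are related to `p` lies in the class together with
its wreath product by the group of order `p`. -/
theorem wreath_of_rel_aux {p : ℕ} [hp : Fact p.Prime] (hCp : F (Cp p)) (n : ℕ) :
    ∀ (K : Type) [Group K] [Finite K], Group.IsSolvable K → Nat.card K = n →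
      (∀ q : ℕ, q.Prime → q ∣ Nat.card K → Rel F p q) → F (K ≀ᵣ Cp p) := by
  induction n using Nat.strong_induction_on with
  | _ n ih =>
    intro K _ _ hK hn hq
    haveI := finite_Cp p
    haveI := nontrivial_Cp p
    rcases subsingleton_or_nontrivial K with hs | hnt
    · apply hF.wreath_pgroup hCp
      exact IsPGroup.iff_card.mpr ⟨0, by simp⟩
    · obtain ⟨M, hM, hcM⟩ := (eq_top_or_exists_le_coatom (commutator K)).resolve_left
        (Group.IsSolvable.commutator_lt_top_of_nontrivial K).ne
      have hMn : M.Normal := by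
        constructor
        intro m hm g
        have h1 : g * m * g⁻¹ * m⁻¹ ∈ commutator K :=
          Subgroup.commutator_mem_commutator (Subgroup.mem_top g) (Subgroup.mem_top m)
        have h2 := mul_mem (hcM h1) hm
        simpa using h2
      obtain ⟨q, hqp, P, hP⟩ : ∃ (q : ℕ) (_ : Fact q.Prime) (P : Sylow q K),
          ¬ (P : Subgroup K) ≤ M := by
        by_contra hcon
        push Not at hcon
        exact hM.1 (eq_top_of_sylow M hcon)
      have hqd : q ∣ Nat.card K := by
        rcases P.isPGroup'.card_eq_or_dvd with h | h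
        · exfalso
          apply hP
          rw [Subgroup.card_eq_one.mp h]
          exact bot_le
        · exact h.trans (Subgroup.card_subgroup_dvd_card _)
      have hsup : M ⊔ (P : Subgroup K) = ⊤ := hM.2 _ (left_lt_sup.mpr hP)
      apply hF.wreath_mul M (P : Subgroup K)
      · intro k
        have hk : k ∈ M ⊔ (P : Subgroup K) := by rw [hsup]; trivial
        rw [Subgroup.mem_sup_of_normal_left] at hk
        obtain ⟨y, hy, z, hz, rfl⟩ := hk
        exact ⟨y, hy, z, hz, rfl⟩
      · apply ih (Nat.card M) (hn ▸ card_lt_of_ne_top hM.1) ↥M inferInstance rfl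
        intro r hr hrd
        exact hq r hr (hrd.trans (Subgroup.card_subgroup_dvd_card _))
      · exact Rel.wreath_qgroup hF (hq q hqp.1 hqd) P.isPGroup'

theorem wreath_of_rel {p : ℕ} [hp : Fact p.Prime] (hCp : F (Cp p)) {K : Type} [Group K]
    [Finite K] (hK : Group.IsSolvable K) (hq : ∀ q : ℕ, q.Prime → q ∣ Nat.card K → Rel F p q) :
    F (K ≀ᵣ Cp p) := hF.wreath_of_rel_aux hCp _ K hK rfl hq

theorem Rel.trans {p q r : ℕ} [hp : Fact p.Prime] [hq : Fact q.Prime] [hr : Fact r.Prime]
    (h1 : Rel F p q) (h2 : Rel F q r) : Rel F p r := by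
  haveI := finite_Cp p
  haveI := finite_Cp r
  have hqp := Rel.symm hF h1
  haveI := isSolvable_wreath (K := Cp r) (Q := Cp p)
  apply hF.of_wreath (K := Cp r ≀ᵣ Cp p) (Q := Cp q)
  apply hF.wreath_of_rel (Rel.bot hF h1) inferInstance
  intro s hs hsd
  rw [RegularWreathProduct.card, card_Cp, card_Cp, hs.dvd_mul] at hsd
  rcases hsd with h | h
  · rw [(Nat.prime_dvd_prime_iff_eq hs hr.1).mp (hs.dvd_of_dvd_pow h)]
    exact h2
  · rw [(Nat.prime_dvd_prime_iff_eq hs hp.1).mp h]
    exact hqp

end IsFit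

end Pool.Agent.H38.Fit
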