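import Pool.Agent.H38.LocalLattices

/-! # Basic facts on local clones, monoids and groups -/

namespace Pool.Agent.H38

universe u v w

/-- Pointwise closed sets are those closed under finite approximation. -/
theorem isClosed_pointwise_iff {A : Type u} {X : Type v} (S : Set (A → X)) :
    @IsClosed _ (pointwiseTop A X) S ↔
      ∀ f : A → X, (∀ F : Finset A, ∃ g ∈ S, ∀ a ∈ F, g a = f a) → f ∈ S := by
  let _ : TopologicalSpace X := ⊥
  have : DiscreteTopology X := ⟨rfl⟩
  constructor
  · intro hS f hf
    by_contra hfS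
    have hopen : IsOpen (Sᶜ : Set (A → X)) := hS.isOpen_compl
    obtain ⟨I, t, ht, hsub⟩ := isOpen_pi_iff.mp hopen f hfS
    obtain ⟨g, hg, hgf⟩ := hf I
    exact hsub (fun a ha => by rw [hgf a ha]; exact (ht a ha).2) hg
  · intro h
    rw [← isOpen_compl_iff, isOpen_pi_iff]
    intro f hf
    have : ¬ ∀ F : Finset A, ∃ g ∈ S, ∀ a ∈ F, g a = f a := fun hh => hf (h f hh)
    push Not at this
    obtain ⟨F, hF⟩ := this
    refine ⟨F, fun a => {f a}, fun a _ => ⟨isOpen_discrete _, rfl⟩, ?_⟩
    intro g hg hgS
    obtain ⟨a, ha, hne⟩ := hF g hgS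
    exact hne (hg a ha)

/-- Closed sets of permutations are those closed under finite approximation. -/
theorem isClosed_perm_iff {X : Type u} (S : Set (Equiv.Perm X)) :
    @IsClosed _ (permTop X) S ↔
      ∀ f : Equiv.Perm X, (∀ F : Finset X, ∃ g ∈ S, ∀ a ∈ F, g a = f a) → f ∈ S := by
  let _ := pointwiseTop X X
  constructor
  · intro hS f hf
    obtain ⟨t, ht, rfl⟩ := isClosed_induced_iff.mp hS
    apply (isClosed_pointwise_iff t).mp ht
    intro F
    obtain ⟨g, hg, hgf⟩ := hf F
    exact ⟨fun x => g x, hg, hgf⟩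
  · intro h
    rw [isClosed_induced_iff]
    refine ⟨{φ | ∀ F : Finset X, ∃ g ∈ S, ∀ a ∈ F, g a = φ a}, ?_, ?_⟩
    · rw [isClosed_pointwise_iff]
      intro φ hφ F
      obtain ⟨ψ, hψ, hψφ⟩ := hφ F
      obtain ⟨g, hg, hgψ⟩ := hψ F
      exact ⟨g, hg, fun a ha => (hgψ a ha).trans (hψφ a ha)⟩
    · ext g
      constructor
      · intro hg
        exact h g hg
      · intro hg F
        exact ⟨g, hg, fun a _ => rfl⟩

namespace LocalClone
variable {X : Type u}

theorem mem_of_approx (a : LocalClone X) {n : ℕ} (f : (Fin (n + 1) → X) → X)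
    (h : ∀ F : Finset (Fin (n + 1) → X), ∃ g ∈ a.ops n, ∀ x ∈ F, g x = f x) : f ∈ a.ops n :=
  (isClosed_pointwise_iff _).mp (a.closed n) f h

theorem inf_ops (a b : LocalClone X) (n : ℕ) : (a ⊓ b).ops n = a.ops n ∩ b.ops n := by
  apply Set.Subset.antisymm
  · exact Set.subset_inter ((inf_le_left : a ⊓ b ≤ a) n) ((inf_le_right : a ⊓ b ≤ b) n)
  · let c : LocalClone X :=
      { ops := fun n => a.ops n ∩ b.ops n
        proj_mem := fun n k => ⟨a.proj_mem n k, b.proj_mem n k⟩
        comp_mem := fun n m f g hf hg =>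
          ⟨a.comp_mem n m f g hf.1 fun i => (hg i).1, b.comp_mem n m f g hf.2 fun i => (hg i).2⟩
        closed := fun n => by
          let _ := pointwiseTop (Fin (n + 1) → X) X
          exact (a.closed n).inter (b.closed n) }
    have : c ≤ a ⊓ b := le_inf (fun n => Set.inter_subset_left) (fun n => Set.inter_subset_right)
    exact this n

end LocalClone

namespace LocalMonoid
variable {X : Type u}

theorem mem_of_approx (a : LocalMonoid X) (f : X → X)
    (h : ∀ F : Finset X, ∃ g ∈ a.carrier, ∀ x ∈ F, g x = f x) : f ∈ a.carrier :=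
  (isClosed_pointwise_iff _).mp a.closed f h

theorem inf_carrier (a b : LocalMonoid X) : (a ⊓ b).carrier = a.carrier ∩ b.carrier := by
  apply Set.Subset.antisymm
  · exact Set.subset_inter (inf_le_left : a ⊓ b ≤ a) (inf_le_right : a ⊓ b ≤ b)
  · let c : LocalMonoid X :=
      { carrier := a.carrier ∩ b.carrier
        id_mem := ⟨a.id_mem, b.id_mem⟩
        comp_mem := fun f g hf hg => ⟨a.comp_mem f g hf.1 hg.1, b.comp_mem f g hf.2 hg.2⟩
        closed := by
          let _ := pointwiseTop X X
          exact a.closed.inter b.closed }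
    have : c ≤ a ⊓ b := le_inf (Set.inter_subset_left) (Set.inter_subset_right)
    exact this

/-- Transport of a local monoid along a bijection. -/
def mapEquiv {Y : Type v} (e : Y ≃ X) (a : LocalMonoid Y) : LocalMonoid X where
  carrier := {f | (fun y => e.symm (f (e y))) ∈ a.carrier}
  id_mem := by
    have := a.id_mem
    simpa [Function.id_def] using this
  comp_mem f g hf hg := by
    have := a.comp_mem _ _ hf hg
    simpa [Function.comp_def] using this
  closed := by
    rw [isClosed_pointwise_iff]
    intro f hf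
    apply a.mem_of_approx
    intro F
    obtain ⟨g, hg, hgf⟩ := hf (F.map e.toEmbedding)
    exact ⟨_, hg, fun y hy => by
      rw [hgf (e y) (Finset.mem_map_of_mem e.toEmbedding hy)]⟩

theorem mem_mapEquiv {Y : Type v} (e : Y ≃ X) (a : LocalMonoid Y) (f : X → X) :
    f ∈ (mapEquiv e a).carrier ↔ (fun y => e.symm (f (e y))) ∈ a.carrier := Iff.rfl

/-- The order isomorphism given by transport along a bijection. -/
def mapIso {Y : Type v} (e : Y ≃ X) : LocalMonoid Y ≃o LocalMonoid X where
  toFun := mapEquiv e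
  invFun := mapEquiv e.symm
  left_inv a := by
    ext f
    simp [mem_mapEquiv]
  right_inv a := by
    ext f
    simp [mem_mapEquiv]
  map_rel_iff' {a b} := by
    constructor
    · intro h f hf
      have h1 : (fun x => e (f (e.symm x))) ∈ (mapEquiv e a).carrier := by
        simpa [mem_mapEquiv] using hf
      have h2 := h h1
      simpa [mem_mapEquiv] using h2
    · intro h f hf
      exact h hf

end LocalMonoid

namespace LocalGroup
variable {X : Type u}

theorem mem_of_approx (a : LocalGroup X) (f : Equiv.Perm X)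
    (h : ∀ F : Finset X, ∃ g ∈ a.toSubgroup, ∀ x ∈ F, g x = f x) : f ∈ a.toSubgroup :=
  (isClosed_perm_iff _).mp a.closed f h

theorem inf_toSubgroup (a b : LocalGroup X) :
    (a ⊓ b).toSubgroup = a.toSubgroup ⊓ b.toSubgroup := by
  apply le_antisymm
  · exact le_inf (inf_le_left : a ⊓ b ≤ a) (inf_le_right : a ⊓ b ≤ b)
  · let c : LocalGroup X :=
      { toSubgroup := a.toSubgroup ⊓ b.toSubgroup
        closed := by
          let _ := permTop X
          exact a.closed.inter b.closed }
    have h1 : c ≤ a := (inf_le_left : a.toSubgroup ⊓ b.toSubgroup ≤ a.toSubgroup)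
    have h2 : c ≤ b := (inf_le_right : a.toSubgroup ⊓ b.toSubgroup ≤ b.toSubgroup)
    have : c ≤ a ⊓ b := le_inf h1 h2
    exact this

/-- Transport of a local group along a bijection. -/
def mapEquiv {Y : Type v} (e : Y ≃ X) (a : LocalGroup Y) : LocalGroup X where
  toSubgroup := a.toSubgroup.comap (e.symm.permCongrHom.toMonoidHom)
  closed := by
    rw [isClosed_perm_iff]
    intro f hf
    apply a.mem_of_approx
    intro F
    obtain ⟨g, hg, hgf⟩ := hf (F.map e.toEmbedding)
    refine ⟨_, hg, fun y hy => ?_⟩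
    have := hgf (e y) (Finset.mem_map_of_mem e.toEmbedding hy)
    simp [this]

theorem mem_mapEquiv {Y : Type v} (e : Y ≃ X) (a : LocalGroup Y) (f : Equiv.Perm X) :
    f ∈ (mapEquiv e a).toSubgroup ↔ e.symm.permCongr f ∈ a.toSubgroup := Iff.rfl

/-- The order isomorphism given by transport along a bijection. -/
def mapIso {Y : Type v} (e : Y ≃ X) : LocalGroup Y ≃o LocalGroup X where
  toFun := mapEquiv e
  invFun := mapEquiv e.symm
  left_inv a := by
    apply LocalGroup.ext
    ext f
    rw [mem_mapEquiv, mem_mapEquiv]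
    have : e.symm.permCongr (e.symm.symm.permCongr f) = f := by ext x; simp
    rw [this]
  right_inv a := by
    apply LocalGroup.ext
    ext f
    rw [mem_mapEquiv, mem_mapEquiv]
    have : e.symm.symm.permCongr (e.symm.permCongr f) = f := by ext x; simp
    rw [this]
  map_rel_iff' {a b} := by
    constructor
    · intro h f hf
      have h0 : e.symm.permCongr (e.permCongr f) = f := by ext x; simp
      have h1 : e.permCongr f ∈ (mapEquiv e a).toSubgroup := by
        rw [mem_mapEquiv, h0]; exact hf
      have h2 := h h1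
      change e.permCongr f ∈ (mapEquiv e b).toSubgroup at h2
      rwa [mem_mapEquiv, h0] at h2
    · intro h f hf
      exact h hf

end LocalGroup

/-- Building an injective lattice homomorphism from one-sided inequalities. -/
theorem exists_latticeHom {α : Type u} {β : Type v} [Lattice α] [Lattice β] (Φ : α → β)
    (hmono : ∀ a b, a ≤ b → Φ a ≤ Φ b) (hinj : Function.Injective Φ)
    (hinf : ∀ a b, Φ a ⊓ Φ b ≤ Φ (a ⊓ b)) (hsup : ∀ a b, Φ (a ⊔ b) ≤ Φ a ⊔ Φ b) :
    ∃ f : LatticeHom α β, Function.Injective f :=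
  ⟨{ toFun := Φ
     map_sup' := fun a b => le_antisymm (hsup a b)
      (sup_le (hmono _ _ le_sup_left) (hmono _ _ le_sup_right))
     map_inf' := fun a b => le_antisymm
      (le_inf (hmono _ _ inf_le_left) (hmono _ _ inf_le_right)) (hinf a b) }, hinj⟩

end Pool.Agent.H38
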