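import Mathlib

/-!
# Lattices of local clones, local transformation monoids and local permutation groups

`X` is given the discrete topology and `A → X` the product topology (topology of pointwise
convergence).
-/

namespace Pool.Agent.H38

universe u v

set_option linter.unusedVariables false

/-- The product topology on `A → X`, where `X` carries the discrete topology. -/
abbrev pointwiseTop (A : Type u) (X : Type v) : TopologicalSpace (A → X) :=
  @Pi.topologicalSpace A (fun _ => X) (fun _ => ⊥)

/-- The topology on the set of all permutations of `X`: the subspace topology from `X → X`. -/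
abbrev permTop (X : Type u) : TopologicalSpace (Equiv.Perm X) :=
  TopologicalSpace.induced (fun s : Equiv.Perm X => (fun x => s x : X → X)) (pointwiseTop X X)

/-- A local clone on `X`: for every arity `n + 1 ≥ 1` a set `ops n` of `(n+1)`-ary operations,
containing all projections, closed under composition, and topologically closed in each arity. -/
@[ext]
structure LocalClone (X : Type u) where
  /-- `ops n` is the set of the `(n+1)`-ary members. -/
  ops : (n : ℕ) → Set ((Fin (n + 1) → X) → X)
  proj_mem : ∀ (n : ℕ) (k : Fin (n + 1)), (fun x : Fin (n + 1) → X => x k) ∈ ops n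
  comp_mem : ∀ (n m : ℕ) (f : (Fin (n + 1) → X) → X) (g : Fin (n + 1) → (Fin (m + 1) → X) → X),
    f ∈ ops n → (∀ i, g i ∈ ops m) → (fun x : Fin (m + 1) → X => f fun i => g i x) ∈ ops m
  closed : ∀ n : ℕ, @IsClosed _ (pointwiseTop (Fin (n + 1) → X) X) (ops n)

/-- A local transformation monoid on `X`: a set of maps `X → X` containing the identity, closed
under composition, and topologically closed. -/
@[ext]
structure LocalMonoid (X : Type u) where
  /-- The underlying set of maps. -/
  carrier : Set (X → X)
  id_mem : id ∈ carrier
  comp_mem : ∀ f g : X → X, f ∈ carrier → g ∈ carrier → f ∘ g ∈ carrier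
  closed : @IsClosed _ (pointwiseTop X X) carrier

/-- A local permutation group on `X`: a group of permutations of `X` that is closed in the space
of all permutations of `X`. -/
@[ext]
structure LocalGroup (X : Type u) where
  /-- The underlying group of permutations. -/
  toSubgroup : Subgroup (Equiv.Perm X)
  closed : @IsClosed _ (permTop X) (toSubgroup : Set (Equiv.Perm X))

/-! ### Inclusion order and complete lattice structure -/

section Clone

variable {X : Type u}

instance : PartialOrder (LocalClone X) where
  le a b := ∀ n, a.ops n ⊆ b.ops n
  le_refl a n := subset_rfl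
  le_trans a b c h1 h2 n := (h1 n).trans (h2 n)
  le_antisymm a b h1 h2 := LocalClone.ext (funext fun n => (h1 n).antisymm (h2 n))

instance : InfSet (LocalClone X) where
  sInf S :=
    { ops := fun n => ⋂ a ∈ S, a.ops n
      proj_mem := fun n k => Set.mem_iInter₂.mpr fun a _ => a.proj_mem n k
      comp_mem := fun n m f g hf hg => Set.mem_iInter₂.mpr fun a ha =>
        a.comp_mem n m f g (Set.mem_iInter₂.mp hf a ha) fun i => Set.mem_iInter₂.mp (hg i) a ha
      closed := fun n => by
        let _ := pointwiseTop (Fin (n + 1) → X) X
        exact isClosed_biInter fun a _ => a.closed n }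

/-- Local clones, ordered by inclusion, form a complete lattice; infima are intersections. -/
instance : CompleteLattice (LocalClone X) :=
  completeLatticeOfInf (LocalClone X) fun S =>
    ⟨fun a ha n => Set.biInter_subset_of_mem ha,
      fun b hb n => Set.subset_iInter₂ fun a ha => hb ha n⟩

end Clone

section Monoid

variable {X : Type u}

instance : PartialOrder (LocalMonoid X) where
  le a b := a.carrier ⊆ b.carrier
  le_refl a := subset_rfl
  le_trans a b c h1 h2 := h1.trans h2
  le_antisymm a b h1 h2 := LocalMonoid.ext (h1.antisymm h2)

instance : InfSet (LocalMonoid X) where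
  sInf S :=
    { carrier := ⋂ a ∈ S, a.carrier
      id_mem := Set.mem_iInter₂.mpr fun a _ => a.id_mem
      comp_mem := fun f g hf hg => Set.mem_iInter₂.mpr fun a ha =>
        a.comp_mem f g (Set.mem_iInter₂.mp hf a ha) (Set.mem_iInter₂.mp hg a ha)
      closed := by
        let _ := pointwiseTop X X
        exact isClosed_biInter fun a _ => a.closed }

/-- Local transformation monoids, ordered by inclusion, form a complete lattice; infima are
intersections. -/
instance : CompleteLattice (LocalMonoid X) :=
  completeLatticeOfInf (LocalMonoid X) fun S =>
    ⟨fun a ha => Set.biInter_subset_of_mem (s := S) (t := fun a => a.carrier) ha,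
      fun b hb => Set.subset_iInter₂ fun a ha => hb ha⟩

end Monoid

section Group

variable {X : Type u}

instance : PartialOrder (LocalGroup X) where
  le a b := a.toSubgroup ≤ b.toSubgroup
  le_refl a := le_rfl
  le_trans a b c h1 h2 := h1.trans h2
  le_antisymm a b h1 h2 := LocalGroup.ext (le_antisymm h1 h2)

instance : InfSet (LocalGroup X) where
  sInf S :=
    { toSubgroup := ⨅ a ∈ S, a.toSubgroup
      closed := by
        let _ := permTop X
        simp only [Subgroup.coe_iInf]
        exact isClosed_biInter fun a _ => a.closed }

/-- Local permutation groups, ordered by inclusion, form a complete lattice; infima are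
intersections. -/
instance : CompleteLattice (LocalGroup X) :=
  completeLatticeOfInf (LocalGroup X) fun S =>
    ⟨fun a ha => iInf₂_le (f := fun (a : LocalGroup X) (_ : a ∈ S) => a.toSubgroup) a ha,
      fun b hb => by
        change b.toSubgroup ≤ ⨅ a ∈ S, a.toSubgroup
        exact le_iInf₂ fun a ha => hb ha⟩

end Group

end Pool.Agent.H38
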