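import Pool.Agent.H38.LocalBasic

/-! # The lattice of local monoids embeds into the lattice of local permutation groups -/

namespace Pool.Agent.H38

set_option linter.unusedVariables false
set_option linter.unusedSectionVars false

/-- The `F_2`-vector space with basis `ℕ × List ℕ`. -/
abbrev VV : Type := (ℕ × List ℕ) →₀ ZMod 2

/-- Basis vectors. -/
noncomputable def bs (i : ℕ) (b : List ℕ) : VV := Finsupp.single (i, b) 1

/-- The operator sending column `j` to row `i` by applying `ψ` entrywise. -/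
noncomputable def uop (i j : ℕ) (ψ : ℕ → ℕ) : Module.End (ZMod 2) VV :=
  Finsupp.linearCombination (ZMod 2)
    (fun p : ℕ × List ℕ => if p.1 = j then bs i (p.2.map ψ) else 0)

theorem uop_bs (i j : ℕ) (ψ : ℕ → ℕ) (k : ℕ) (b : List ℕ) :
    uop i j ψ (bs k b) = if k = j then bs i (b.map ψ) else 0 := by
  simp [uop, bs]

theorem end_ext {T S : Module.End (ZMod 2) VV} (h : ∀ k b, T (bs k b) = S (bs k b)) : T = S := by
  apply Finsupp.lhom_ext
  rintro ⟨k, b⟩ c
  have hc : (Finsupp.single (k, b) c : VV) = c • bs k b := by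
    simp [bs]
  rw [hc, map_smul, map_smul, h]

theorem uop_mul (i j k l : ℕ) (φ ψ : ℕ → ℕ) :
    uop i j φ * uop k l ψ = if k = j then uop i l (φ ∘ ψ) else 0 := by
  apply end_ext
  intro m b
  rw [Module.End.mul_apply, uop_bs]
  by_cases h1 : m = l
  · rw [if_pos h1, uop_bs]
    by_cases h2 : k = j
    · rw [if_pos h2, if_pos h2, uop_bs, if_pos h1, List.map_map]
    · rw [if_neg h2, if_neg h2]; simp
  · rw [if_neg h1, map_zero]
    by_cases h2 : k = j
    · rw [if_pos h2, uop_bs, if_neg h1]
    · rw [if_neg h2]; simp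

theorem end_add_self (T : Module.End (ZMod 2) VV) : T + T = 0 := by
  exact LinearMap.ext fun v => ZModModule.add_self (T v)

theorem uop_congr (i j : ℕ) (φ φ' : ℕ → ℕ) (v : VV)
    (h : ∀ p ∈ v.support, ∀ x ∈ p.2, φ x = φ' x) : uop i j φ v = uop i j φ' v := by
  simp only [uop, Finsupp.linearCombination_apply]
  apply Finsupp.sum_congr
  intro p hp
  have : p.2.map φ = p.2.map φ' := List.map_congr_left (h p hp)
  rw [this]

/-- The value `∑ (i, b.map ψ)` attached to a finite list of pairs `(i, ψ)`. -/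
noncomputable def ev (P : List (ℕ × (ℕ → ℕ))) (b : List ℕ) : VV :=
  (P.map fun t => bs t.1 (b.map t.2)).sum

theorem ev_nil (b : List ℕ) : ev [] b = 0 := rfl

theorem ev_cons (t : ℕ × (ℕ → ℕ)) (P : List (ℕ × (ℕ → ℕ))) (b : List ℕ) :
    ev (t :: P) b = bs t.1 (b.map t.2) + ev P b := by
  simp [ev]

theorem ev_append (P Q : List (ℕ × (ℕ → ℕ))) (b : List ℕ) :
    ev (P ++ Q) b = ev P b + ev Q b := by
  simp [ev]

theorem mem_support_ev {P : List (ℕ × (ℕ → ℕ))} {b : List ℕ} {p : ℕ × List ℕ}
    (h : p ∈ (ev P b).support) : ∃ t ∈ P, p = (t.1, b.map t.2) := by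
  classical
  induction P with
  | nil => simp [ev_nil] at h
  | cons t P ih =>
    rw [ev_cons] at h
    rcases Finset.mem_union.mp (Finsupp.support_add h) with h1 | h1
    · have := Finsupp.support_single_subset h1
      exact ⟨t, by simp, by simpa using this⟩
    · obtain ⟨s, hs, hse⟩ := ih h1
      exact ⟨s, by simp [hs], hse⟩

/-- Reindexing along a list of positions. -/
noncomputable def rx (b : List ℕ) : VV →ₗ[ZMod 2] VV :=
  Finsupp.lmapDomain (ZMod 2) (ZMod 2) (fun p : ℕ × List ℕ => (p.1, b.map fun k => p.2.getD k 0))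

theorem rx_bs (b : List ℕ) (i : ℕ) (c : List ℕ) :
    rx b (bs i c) = bs i (b.map fun k => c.getD k 0) := by
  simp [rx, bs, Finsupp.mapDomain_single]

theorem rx_ev (P : List (ℕ × (ℕ → ℕ))) (b : List ℕ) (n : ℕ) (hb : ∀ x ∈ b, x < n) :
    rx b (ev P (List.range n)) = ev P b := by
  induction P with
  | nil => simp [ev_nil]
  | cons t P ih =>
    rw [ev_cons, ev_cons, map_add, ih, rx_bs]
    congr 2
    apply List.map_congr_left
    intro x hx
    have h1 : x < ((List.range n).map t.2).length := by simpa using hb x hx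
    rw [List.getD_eq_getElem _ _ h1]
    simp

/-- `T` has local approximations over `M`. -/
def InE (M : LocalMonoid ℕ) (T : Module.End (ZMod 2) VV) : Prop :=
  ∀ j n : ℕ, ∃ P : List (ℕ × (ℕ → ℕ)), (∀ t ∈ P, t.2 ∈ M.carrier) ∧
    ∀ b : List ℕ, (∀ x ∈ b, x < n) → T (bs j b) = ev P b

theorem InE.one (M : LocalMonoid ℕ) : InE M 1 := by
  intro j n
  refine ⟨[(j, id)], by simpa using M.id_mem, fun b _ => ?_⟩
  simp [ev]

theorem InE.mono {M N : LocalMonoid ℕ} (h : M ≤ N) {T : Module.End (ZMod 2) VV} (hT : InE M T) :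
    InE N T := by
  intro j n
  obtain ⟨P, hP, hPe⟩ := hT j n
  exact ⟨P, fun t ht => h (hP t ht), hPe⟩

theorem InE.map_ev {M : LocalMonoid ℕ} {T : Module.End (ZMod 2) VV} (hT : InE M T) (n : ℕ) :
    ∀ P : List (ℕ × (ℕ → ℕ)), (∀ t ∈ P, t.2 ∈ M.carrier) →
      ∃ Q : List (ℕ × (ℕ → ℕ)), (∀ t ∈ Q, t.2 ∈ M.carrier) ∧
        ∀ b : List ℕ, (∀ x ∈ b, x < n) → T (ev P b) = ev Q b := by
  intro P
  induction P with
  | nil => intro _; exact ⟨[], by simp, fun b _ => by simp [ev_nil]⟩
  | cons t P ih =>
    intro hP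
    obtain ⟨Q, hQ, hQe⟩ := ih fun s hs => hP s (List.mem_cons_of_mem _ hs)
    obtain ⟨R, hR, hRe⟩ := hT t.1 ((Finset.range n).sup t.2 + 1)
    refine ⟨R.map (fun s => (s.1, s.2 ∘ t.2)) ++ Q, ?_, fun b hb => ?_⟩
    · intro s hs
      rcases List.mem_append.mp hs with h | h
      · obtain ⟨r, hr, rfl⟩ := List.mem_map.mp h
        exact M.comp_mem r.2 t.2 (hR r hr) (hP t (by simp))
      · exact hQ s h
    · rw [ev_cons, map_add, ev_append, hQe b hb, hRe]
      · congr 1
        simp [ev, Function.comp_def]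
      · intro x hx
        obtain ⟨y, hy, rfl⟩ := List.mem_map.mp hx
        have : t.2 y ≤ (Finset.range n).sup t.2 :=
          Finset.le_sup (Finset.mem_range.mpr (hb y hy))
        omega

theorem InE.mul {M : LocalMonoid ℕ} {T S : Module.End (ZMod 2) VV} (hT : InE M T)
    (hS : InE M S) : InE M (T * S) := by
  intro j n
  obtain ⟨P, hP, hPe⟩ := hS j n
  obtain ⟨Q, hQ, hQe⟩ := hT.map_ev n P hP
  exact ⟨Q, hQ, fun b hb => by rw [Module.End.mul_apply, hPe b hb, hQe b hb]⟩

theorem InE.reindex {M : LocalMonoid ℕ} {T : Module.End (ZMod 2) VV} (hT : InE M T) (j n : ℕ)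
    (b : List ℕ) (hb : ∀ x ∈ b, x < n) : T (bs j b) = rx b (T (bs j (List.range n))) := by
  obtain ⟨P, hP, hPe⟩ := hT j n
  rw [hPe b hb, hPe _ (by simp), rx_ev P b n hb]

/-- The key step: local approximations over `M` and over `N` give approximations over the
intersection. -/
theorem InE.inf {M N : LocalMonoid ℕ} {T : Module.End (ZMod 2) VV} (hM : InE M T)
    (hN : InE N T) : InE (M ⊓ N) T := by
  classical
  intro j
  -- every support element of `T (bs j (range m))` comes from a common map
  have step : ∀ (m i : ℕ) (c : List ℕ), (i, c) ∈ (T (bs j (List.range m))).support →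
      ∃ c' : List ℕ, (i, c') ∈ (T (bs j (List.range (m + 1)))).support ∧
        (List.range m).map (fun k => c'.getD k 0) = c := by
    intro m i c hc
    rw [hM.reindex j (m + 1) (List.range m) (fun x hx => by
      have := List.mem_range.mp hx; omega)] at hc
    have h1 := Finsupp.mapDomain_support hc
    obtain ⟨⟨i', c'⟩, h2, h3⟩ := Finset.mem_image.mp h1
    simp only [Prod.mk.injEq] at h3
    obtain ⟨rfl, h4⟩ := h3
    exact ⟨c', h2, h4⟩
  have common : ∀ (m i : ℕ) (c : List ℕ), (i, c) ∈ (T (bs j (List.range m))).support →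
      ∃ φ : ℕ → ℕ, φ ∈ M.carrier ∧ φ ∈ N.carrier ∧ c = (List.range m).map φ := by
    intro m i c hc
    choose nx hnx1 hnx2 using step
    let s : (k : ℕ) → {c : List ℕ // (i, c) ∈ (T (bs j (List.range (m + k)))).support} :=
      fun k => Nat.rec ⟨c, hc⟩ (fun k r => ⟨nx (m + k) i r.1 r.2, hnx1 (m + k) i r.1 r.2⟩) k
    have hs0 : (s 0).1 = c := rfl
    have hss : ∀ k, (List.range (m + k)).map (fun x => (s (k + 1)).1.getD x 0) = (s k).1 :=
      fun k => hnx2 (m + k) i (s k).1 (s k).2
    have form : ∀ (L : LocalMonoid ℕ), InE L T → ∀ k, ∃ ψ ∈ L.carrier,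
        (s k).1 = (List.range (m + k)).map ψ := by
      intro L hL k
      obtain ⟨P, hP, hPe⟩ := hL j (m + k)
      have h2 := hPe (List.range (m + k)) (by simp)
      have h3 : (i, (s k).1) ∈ (ev P (List.range (m + k))).support := h2 ▸ (s k).2
      obtain ⟨t, ht, hte⟩ := mem_support_ev h3
      exact ⟨t.2, hP t ht, (Prod.mk.inj hte).2⟩
    have hlen : ∀ k, (s k).1.length = m + k := by
      intro k
      obtain ⟨ψ, _, h⟩ := form M hM k
      rw [h]; simp
    -- entries are stable
    have hstab : ∀ k l x, x < m + k → (s (k + l)).1.getD x 0 = (s k).1.getD x 0 := by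
      intro k l x hx
      induction l with
      | zero => rfl
      | succ l ih =>
        rw [← ih]
        have h1 := hss (k + l)
        have h2 : x < ((List.range (m + (k + l))).map
            (fun x => (s (k + l + 1)).1.getD x 0)).length := by simp; omega
        have h3 : ((List.range (m + (k + l))).map
            (fun x => (s (k + l + 1)).1.getD x 0)).getD x 0 = (s (k + l + 1)).1.getD x 0 := by
          rw [List.getD_eq_getElem _ _ h2]; simp
        rw [← h1, h3]
        rfl
    let φ : ℕ → ℕ := fun x => (s (x + 1)).1.getD x 0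
    have hφ : ∀ k, (s k).1 = (List.range (m + k)).map φ := by
      intro k
      apply List.ext_getElem
      · rw [hlen]; simp
      · intro x h1 h2
        have hx : x < m + k := by rw [hlen] at h1; exact h1
        rw [List.getElem_map, List.getElem_range]
        have h3 : (s k).1[x] = (s k).1.getD x 0 := (List.getD_eq_getElem _ _ h1).symm
        rw [h3]
        change (s k).1.getD x 0 = (s (x + 1)).1.getD x 0
        rcases le_total k (x + 1) with h | h
        · obtain ⟨l, hl⟩ := Nat.exists_eq_add_of_le h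
          rw [hl, hstab k l x hx]
        · obtain ⟨l, hl⟩ := Nat.exists_eq_add_of_le h
          rw [hl, hstab (x + 1) l x (by omega)]
    have mem : ∀ (L : LocalMonoid ℕ), InE L T → φ ∈ L.carrier := by
      intro L hL
      apply L.mem_of_approx
      intro F
      obtain ⟨ψ, hψ, h⟩ := form L hL (F.sup id + 1)
      refine ⟨ψ, hψ, fun x hx => ?_⟩
      have hxle : x ≤ F.sup id := Finset.le_sup (f := id) hx
      rw [hφ] at h
      exact (List.map_inj_left.mp h x (List.mem_range.mpr (by omega))).symm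
    refine ⟨φ, mem M hM, mem N hN, ?_⟩
    have := hφ 0
    rw [hs0] at this
    exact this
  intro n
  set f := T (bs j (List.range n)) with hf
  have hex : ∀ p : ℕ × List ℕ, ∃ φ : ℕ → ℕ, p ∈ f.support →
      (φ ∈ M.carrier ∧ φ ∈ N.carrier ∧ p.2 = (List.range n).map φ) := by
    intro p
    by_cases hp : p ∈ f.support
    · obtain ⟨φ, h⟩ := common n p.1 p.2 hp
      exact ⟨φ, fun _ => h⟩
    · exact ⟨id, fun h => absurd h hp⟩
  choose Φ hΦ using hex
  let P : List (ℕ × (ℕ → ℕ)) := f.support.toList.map fun p => (p.1, Φ p)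
  refine ⟨P, ?_, fun b hb => ?_⟩
  · intro t ht
    obtain ⟨p, hp, rfl⟩ := List.mem_map.mp ht
    rw [LocalMonoid.inf_carrier]
    have := hΦ p (Finset.mem_toList.mp hp)
    exact ⟨this.1, this.2.1⟩
  · have h1 : f = ev P (List.range n) := by
      have h2 : ev P (List.range n) = ∑ p ∈ f.support, bs p.1 ((List.range n).map (Φ p)) := by
        simp only [ev, P, List.map_map]
        rw [← Finset.sum_map_toList]
        rfl
      rw [h2]
      have h3 : f = ∑ p ∈ f.support, Finsupp.single p (f p) := (Finsupp.sum_single f).symm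
      conv_lhs => rw [h3]
      apply Finset.sum_congr rfl
      intro p hp
      have h4 := (hΦ p hp).2.2
      rw [← h4]
      have h5 : f p = 1 := by
        have h6 : f p ≠ 0 := Finsupp.mem_support_iff.mp hp
        revert h6
        generalize f p = c
        revert c
        decide
      rw [h5]
      rfl
    rw [hM.reindex j n b hb, ← hf, h1, rx_ev P b n hb]

/-- The local permutation group attached to a local monoid on `ℕ`. -/
def psi (M : LocalMonoid ℕ) : LocalGroup VV where
  toSubgroup :=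
    { carrier := {g | ∃ T S : Module.End (ZMod 2) VV, InE M T ∧ InE M S ∧ (∀ v, g v = T v) ∧
        ∀ v, g⁻¹ v = S v}
      one_mem' := ⟨1, 1, InE.one M, InE.one M, fun _ => rfl, fun _ => by simp⟩
      mul_mem' := by
        rintro g h ⟨T, S, hT, hS, hgT, hgS⟩ ⟨T', S', hT', hS', hhT, hhS⟩
        refine ⟨T * T', S' * S, hT.mul hT', hS'.mul hS, fun v => ?_, fun v => ?_⟩
        · rw [Equiv.Perm.mul_apply, hhT, hgT]; rfl
        · rw [mul_inv_rev, Equiv.Perm.mul_apply, hgS, hhS]; rfl
      inv_mem' := by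
        rintro g ⟨T, S, hT, hS, hgT, hgS⟩
        exact ⟨S, T, hS, hT, hgS, fun v => by rw [inv_inv]; exact hgT v⟩ }
  closed := by
    classical
    rw [isClosed_perm_iff]
    -- a general lemma on limits
    have lim : ∀ f : VV → VV, (∀ F : Finset VV, ∃ T : Module.End (ZMod 2) VV, InE M T ∧
        ∀ v ∈ F, T v = f v) → ∃ T : Module.End (ZMod 2) VV, InE M T ∧ ∀ v, f v = T v := by
      intro f hf
      have hadd : ∀ v w, f (v + w) = f v + f w := by
        intro v w
        obtain ⟨T, -, hT⟩ := hf {v, w, v + w}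
        rw [← hT v (by simp), ← hT w (by simp), ← hT (v + w) (by simp), map_add]
      refine ⟨(AddMonoidHom.mk' f hadd).toZModLinearMap 2, ?_, fun v => rfl⟩
      intro j n
      obtain ⟨T, hT, hTf⟩ := hf {bs j (List.range n)}
      obtain ⟨P, hP, hPe⟩ := hT j n
      refine ⟨P, hP, fun b hb => ?_⟩
      obtain ⟨T', hT', hTf'⟩ := hf {bs j (List.range n), bs j b}
      change f (bs j b) = ev P b
      rw [← hTf' (bs j b) (by simp), hT'.reindex j n b hb, hTf' _ (by simp),
        ← hTf _ (by simp), hPe _ (by simp), rx_ev P b n hb]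
    intro g hg
    obtain ⟨T, hT, hgT⟩ := lim g (fun F => by
      obtain ⟨h, ⟨T, S, hT, hS, hhT, hhS⟩, hhg⟩ := hg F
      exact ⟨T, hT, fun v hv => by rw [← hhT, hhg v hv]⟩)
    obtain ⟨S, hS, hgS⟩ := lim (fun v => g⁻¹ v) (fun F => by
      obtain ⟨h, ⟨T, S, hT, hS, hhT, hhS⟩, hhg⟩ := hg (F.image fun v => g⁻¹ v)
      refine ⟨S, hS, fun v hv => ?_⟩
      rw [← hhS]
      have h1 := hhg (g⁻¹ v) (Finset.mem_image_of_mem _ hv)
      rw [Equiv.Perm.inv_eq_iff_eq, h1]
      exact (g.apply_symm_apply v).symm)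
    exact ⟨T, S, hT, hS, hgT, hgS⟩

theorem mem_psi (M : LocalMonoid ℕ) (g : Equiv.Perm VV) : g ∈ (psi M).toSubgroup ↔
    ∃ T S : Module.End (ZMod 2) VV, InE M T ∧ InE M S ∧ (∀ v, g v = T v) ∧
        ∀ v, g⁻¹ v = S v := Iff.rfl

theorem psi_mono {M N : LocalMonoid ℕ} (h : M ≤ N) : psi M ≤ psi N := by
  rintro g ⟨T, S, hT, hS, hgT, hgS⟩
  exact ⟨T, S, hT.mono h, hS.mono h, hgT, hgS⟩

theorem psi_inf (M N : LocalMonoid ℕ) : psi M ⊓ psi N ≤ psi (M ⊓ N) := by
  intro g hg
  change g ∈ (psi M ⊓ psi N).toSubgroup at hg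
  rw [LocalGroup.inf_toSubgroup] at hg
  obtain ⟨⟨T, S, hT, hS, hgT, hgS⟩, ⟨T', S', hT', hS', hgT', hgS'⟩⟩ := hg
  have h1 : T = T' := LinearMap.ext fun v => by rw [← hgT, ← hgT']
  have h2 : S = S' := LinearMap.ext fun v => by rw [← hgS, ← hgS']
  subst h1 h2
  exact ⟨T, S, hT.inf hT', hS.inf hS', hgT, hgS⟩

/-! ### Elementary operators -/

theorem el_mul_self {i j : ℕ} (h : i ≠ j) (φ : ℕ → ℕ) :
    (1 + uop i j φ) * (1 + uop i j φ) = 1 := by
  have h1 : uop i j φ * uop i j φ = 0 := by rw [uop_mul, if_neg h]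
  have h2 := end_add_self (uop i j φ)
  calc (1 + uop i j φ) * (1 + uop i j φ) = 1 + (uop i j φ + uop i j φ) + uop i j φ * uop i j φ := by
        noncomm_ring
    _ = 1 := by rw [h1, h2]; simp

/-- The elementary permutation. -/
noncomputable def elP (i j : ℕ) (h : i ≠ j) (φ : ℕ → ℕ) : Equiv.Perm VV where
  toFun := fun v => (1 + uop i j φ : Module.End (ZMod 2) VV) v
  invFun := fun v => (1 + uop i j φ : Module.End (ZMod 2) VV) v
  left_inv v := by
    change (1 + uop i j φ : Module.End (ZMod 2) VV) ((1 + uop i j φ : Module.End (ZMod 2) VV) v) = v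
    rw [← Module.End.mul_apply, el_mul_self h]; rfl
  right_inv v := by
    change (1 + uop i j φ : Module.End (ZMod 2) VV) ((1 + uop i j φ : Module.End (ZMod 2) VV) v) = v
    rw [← Module.End.mul_apply, el_mul_self h]; rfl

theorem InE.el {M : LocalMonoid ℕ} (i j : ℕ) {φ : ℕ → ℕ} (hφ : φ ∈ M.carrier) :
    InE M (1 + uop i j φ) := by
  intro k n
  by_cases h : k = j
  · refine ⟨[(k, id), (i, φ)], ?_, fun b _ => ?_⟩
    · intro t ht
      simp only [List.mem_cons, List.not_mem_nil, or_false] at ht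
      rcases ht with rfl | rfl
      · exact M.id_mem
      · exact hφ
    · rw [LinearMap.add_apply, uop_bs, if_pos h]
      simp [ev]
  · refine ⟨[(k, id)], by simpa using M.id_mem, fun b _ => ?_⟩
    rw [LinearMap.add_apply, uop_bs, if_neg h]
    simp [ev]

theorem elP_mem_psi {M : LocalMonoid ℕ} (i j : ℕ) (h : i ≠ j) {φ : ℕ → ℕ}
    (hφ : φ ∈ M.carrier) : elP i j h φ ∈ (psi M).toSubgroup :=
  ⟨_, _, InE.el i j hφ, InE.el i j hφ, fun _ => rfl, fun _ => rfl⟩

theorem le_of_psi_le {M N : LocalMonoid ℕ} (h : psi M ≤ psi N) : M ≤ N := by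
  intro φ hφ
  obtain ⟨T, S, hT, hS, hgT, hgS⟩ := h (elP_mem_psi (M := M) 0 1 (by decide) hφ)
  apply N.mem_of_approx
  intro F
  obtain ⟨P, hP, hPe⟩ := hT 1 (F.sup id + 1)
  have h1 := hPe (List.range (F.sup id + 1)) (by simp)
  rw [← hgT] at h1
  change (1 + uop 0 1 φ : Module.End (ZMod 2) VV) _ = _ at h1
  rw [LinearMap.add_apply, uop_bs, if_pos rfl] at h1
  have h2 : ((0 : ℕ), (List.range (F.sup id + 1)).map φ) ∈
      (ev P (List.range (F.sup id + 1))).support := by
    rw [← h1, Finsupp.mem_support_iff]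
    simp [bs]
  obtain ⟨t, ht, hte⟩ := mem_support_ev h2
  refine ⟨t.2, hP t ht, fun x hx => ?_⟩
  have hxle : x ≤ F.sup id := Finset.le_sup (f := id) hx
  exact (List.map_inj_left.mp (Prod.mk.inj hte).2 x (List.mem_range.mpr (by omega))).symm

section Join

variable (K : LocalGroup VV)

/-- The operator `T` is realised by an element of `K`. -/
def InK (T : Module.End (ZMod 2) VV) : Prop := ∃ g ∈ K.toSubgroup, ∀ v, g v = T v

variable {K}

theorem InK.mul {T S : Module.End (ZMod 2) VV} (hT : InK K T) (hS : InK K S) :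
    InK K (T * S) := by
  obtain ⟨g, hg, hgT⟩ := hT
  obtain ⟨h, hh, hhS⟩ := hS
  exact ⟨g * h, K.toSubgroup.mul_mem hg hh, fun v => by
    rw [Equiv.Perm.mul_apply, hhS, hgT]; rfl⟩

theorem InK.one : InK K 1 := ⟨1, K.toSubgroup.one_mem, fun _ => rfl⟩

/-- The local monoid of all maps whose elementary operators are in `K`. -/
def elMonoid (K : LocalGroup VV) (M : LocalMonoid ℕ) (hM : psi M ≤ K) : LocalMonoid ℕ where
  carrier := {φ | ∀ i j, i ≠ j → InK K (1 + uop i j φ)}
  id_mem := fun i j h => ⟨elP i j h id, hM (elP_mem_psi i j h M.id_mem), fun _ => rfl⟩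
  comp_mem := by
    intro φ ψ hφ hψ i k hik
    obtain ⟨j, hj1, hj2⟩ : ∃ j : ℕ, j ≠ i ∧ j ≠ k := ⟨i + k + 1, by omega, by omega⟩
    have h1 := (hφ i j hj1.symm).mul (hψ j k hj2)
    have h2 := h1.mul h1
    have hAA : uop i j φ * uop i j φ = 0 := by rw [uop_mul, if_neg hj1.symm]
    have hBB : uop j k ψ * uop j k ψ = 0 := by rw [uop_mul, if_neg hj2]
    have hBA : uop j k ψ * uop i j φ = 0 := by rw [uop_mul, if_neg hik]
    have hAB : uop i j φ * uop j k ψ = uop i k (φ ∘ ψ) := by rw [uop_mul, if_pos rfl]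
    set A := uop i j φ
    set B := uop j k ψ
    have hexp : (1 + A) * (1 + B) * ((1 + A) * (1 + B)) = 1 + A * B := by
      calc (1 + A) * (1 + B) * ((1 + A) * (1 + B))
          = 1 + ((A + B + A * B) + (A + B + A * B)) + (A * A + A * B + (A * A) * B + B * A + B * B
            + (B * A) * B + A * (B * A) + A * (B * B) + A * (B * A) * B) := by noncomm_ring
        _ = 1 + A * B := by rw [end_add_self, hAA, hBA, hBB]; simp
    rw [hexp, hAB] at h2
    exact h2
  closed := by
    classical
    rw [isClosed_pointwise_iff]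
    intro φ hφ i j h
    refine ⟨elP i j h φ, ?_, fun _ => rfl⟩
    apply K.mem_of_approx
    intro F
    obtain ⟨φ', hφ', hφφ'⟩ := hφ (F.biUnion fun v => v.support.biUnion fun p => p.2.toFinset)
    obtain ⟨g, hg, hgT⟩ := hφ' i j h
    refine ⟨g, hg, fun v hv => ?_⟩
    rw [hgT]
    change v + uop i j φ' v = v + uop i j φ v
    rw [uop_congr i j φ' φ v]
    intro p hp x hx
    apply hφφ'
    simp only [Finset.mem_biUnion, List.mem_toFinset]
    exact ⟨v, hv, p, hp, hx⟩

theorem le_elMonoid {M N : LocalMonoid ℕ} (hM : psi M ≤ K) (hN : psi N ≤ K) :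
    N ≤ elMonoid K M hM := fun φ hφ i j h =>
  ⟨elP i j h φ, hN (elP_mem_psi i j h hφ), fun _ => rfl⟩

/-- Generators with rows in `R`, columns in `C` and maps in `M`. -/
def gens (R C : Set ℕ) (M : LocalMonoid ℕ) : Set (Module.End (ZMod 2) VV) :=
  {T | ∃ i ∈ R, ∃ j ∈ C, ∃ φ ∈ M.carrier, T = uop i j φ}

theorem gens_mul {R C : Set ℕ} (hRC : Disjoint R C) {M : LocalMonoid ℕ}
    {A B : Module.End (ZMod 2) VV} (hA : A ∈ AddSubmonoid.closure (gens R C M))
    (hB : B ∈ AddSubmonoid.closure (gens R C M)) : A * B = 0 := by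
  induction hA using AddSubmonoid.closure_induction with
  | mem A hA =>
    obtain ⟨i, hi, j, hj, φ, hφ, rfl⟩ := hA
    induction hB using AddSubmonoid.closure_induction with
    | mem B hB =>
      obtain ⟨k, hk, l, hl, ψ, hψ, rfl⟩ := hB
      rw [uop_mul, if_neg]
      rintro rfl
      exact Set.disjoint_left.mp hRC hk hj
    | zero => simp
    | add B B' _ _ h1 h2 => rw [mul_add, h1, h2, add_zero]
  | zero => simp
  | add A A' _ _ h1 h2 => rw [add_mul, h1, h2, add_zero]

theorem InK.of_gens {R C : Set ℕ} (hRC : Disjoint R C) {M : LocalMonoid ℕ}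
    (hM : ∀ φ ∈ M.carrier, ∀ i j, i ≠ j → InK K (1 + uop i j φ))
    {A : Module.End (ZMod 2) VV} (hA : A ∈ AddSubmonoid.closure (gens R C M)) :
    InK K (1 + A) := by
  induction hA using AddSubmonoid.closure_induction with
  | mem A hA =>
    obtain ⟨i, hi, j, hj, φ, hφ, rfl⟩ := hA
    apply hM φ hφ
    rintro rfl
    exact Set.disjoint_left.mp hRC hi hj
  | zero => rw [add_zero]; exact InK.one
  | add A B hA hB h1 h2 =>
    have h3 := h1.mul h2
    have h4 : (1 + A) * (1 + B) = 1 + (A + B) := by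
      calc (1 + A) * (1 + B) = 1 + (A + B) + A * B := by noncomm_ring
        _ = 1 + (A + B) := by rw [gens_mul hRC hA hB, add_zero]
    rwa [h4] at h3

theorem psi_sup (M N : LocalMonoid ℕ) : psi (M ⊔ N) ≤ psi M ⊔ psi N := by
  classical
  set K := psi M ⊔ psi N with hK
  have hMK : psi M ≤ K := le_sup_left
  have hNK : psi N ≤ K := le_sup_right
  have hel : ∀ φ ∈ (M ⊔ N).carrier, ∀ i j, i ≠ j → InK K (1 + uop i j φ) := by
    have hle : M ⊔ N ≤ elMonoid K M hMK := sup_le (le_elMonoid hMK hMK) (le_elMonoid hMK hNK)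
    exact fun φ hφ => hle hφ
  rintro g ⟨T, S, hT, hS, hgT, hgS⟩
  have hST : ∀ v, S (T v) = v := fun v => by
    rw [← hgT, ← hgS]; exact g.symm_apply_apply v
  apply K.mem_of_approx
  intro F
  -- bounds
  obtain ⟨n, hn⟩ : ∃ n : ℕ, ∀ v ∈ F, ∀ p ∈ v.support, p.1 < n ∧ ∀ x ∈ p.2, x < n := by
    refine ⟨(F.sup fun v => v.support.sup fun p => p.1 + p.2.sum) + 1, fun v hv p hp => ?_⟩
    have h1 : (v.support.sup fun p => p.1 + p.2.sum) ≤
        F.sup fun v => v.support.sup fun p => p.1 + p.2.sum :=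
      Finset.le_sup (f := fun v : VV => v.support.sup fun p => p.1 + p.2.sum) hv
    have h2 : p.1 + p.2.sum ≤ v.support.sup fun p => p.1 + p.2.sum :=
      Finset.le_sup (f := fun p : ℕ × List ℕ => p.1 + p.2.sum) hp
    refine ⟨by omega, fun x hx => ?_⟩
    have := List.single_le_sum (fun y _ => Nat.zero_le y) x hx
    omega
  choose P hP hPe using fun j => hT j n
  obtain ⟨m, hm⟩ : ∃ m : ℕ, ∀ j < n, ∀ t ∈ P j, t.1 < m ∧ ∀ x < n, t.2 x < m := by
    refine ⟨((Finset.range n).sup fun j => ((P j).map fun t =>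
      t.1 + (Finset.range n).sup t.2).sum) + 1, fun j hj t ht => ?_⟩
    have h1 : ((P j).map fun t => t.1 + (Finset.range n).sup t.2).sum ≤
        (Finset.range n).sup fun j => ((P j).map fun t => t.1 + (Finset.range n).sup t.2).sum :=
      Finset.le_sup (f := fun j => ((P j).map fun t => t.1 + (Finset.range n).sup t.2).sum)
        (Finset.mem_range.mpr hj)
    have h2 : t.1 + (Finset.range n).sup t.2 ≤
        ((P j).map fun t => t.1 + (Finset.range n).sup t.2).sum :=
      List.single_le_sum (fun y _ => Nat.zero_le y) _ (List.mem_map.mpr ⟨t, ht, rfl⟩)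
    refine ⟨by omega, fun x hx => ?_⟩
    have h3 : t.2 x ≤ (Finset.range n).sup t.2 := Finset.le_sup (Finset.mem_range.mpr hx)
    omega
  choose Q hQ hQe using fun i => hS i m
  obtain ⟨L, hnL, hmL, hL⟩ : ∃ L : ℕ, n ≤ L ∧ m ≤ L ∧ ∀ i < m, ∀ t ∈ Q i, t.1 < L := by
    refine ⟨n + m + ((Finset.range m).sup fun i => ((Q i).map fun t => t.1).sum) + 1,
      by omega, by omega, fun i hi t ht => ?_⟩
    have h1 : ((Q i).map fun t => t.1).sum ≤
        (Finset.range m).sup fun i => ((Q i).map fun t => t.1).sum :=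
      Finset.le_sup (f := fun i => ((Q i).map fun t => t.1).sum) (Finset.mem_range.mpr hi)
    have h2 : t.1 ≤ ((Q i).map fun t => t.1).sum :=
      List.single_le_sum (fun y _ => Nat.zero_le y) _ (List.mem_map.mpr ⟨t, ht, rfl⟩)
    omega
  -- the four block operators
  let A : Module.End (ZMod 2) VV :=
    ∑ j ∈ Finset.range n, ((P j).map fun t => uop (L + t.1) j t.2).sum
  let B : Module.End (ZMod 2) VV :=
    ∑ i ∈ Finset.range m, ((Q i).map fun t => uop t.1 (L + i) t.2).sum
  let C : Module.End (ZMod 2) VV := ∑ i ∈ Finset.range m, uop i (L + i) id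
  let D : Module.End (ZMod 2) VV := ∑ i ∈ Finset.range m, uop (L + i) i id
  let hi : Set ℕ := {k | L ≤ k}
  let lo : Set ℕ := {k | k < L}
  have hdis : Disjoint hi lo := Set.disjoint_left.mpr fun k (h1 : L ≤ k) (h2 : k < L) => by omega
  have hA : InK K (1 + A) := by
    apply InK.of_gens hdis hel
    apply sum_mem
    intro j hj
    apply list_sum_mem
    intro T' hT'
    obtain ⟨t, ht, rfl⟩ := List.mem_map.mp hT'
    apply AddSubmonoid.subset_closure
    exact ⟨L + t.1, Nat.le_add_right _ _, j, lt_of_lt_of_le (Finset.mem_range.mp hj) hnL,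
      t.2, hP j t ht, rfl⟩
  have hB : InK K (1 + B) := by
    apply InK.of_gens hdis.symm hel
    apply sum_mem
    intro i hi'
    apply list_sum_mem
    intro T' hT'
    obtain ⟨t, ht, rfl⟩ := List.mem_map.mp hT'
    apply AddSubmonoid.subset_closure
    exact ⟨t.1, hL i (Finset.mem_range.mp hi') t ht, L + i, Nat.le_add_right _ _,
      t.2, hQ i t ht, rfl⟩
  have hC : InK K (1 + C) := by
    apply InK.of_gens hdis.symm hel
    apply sum_mem
    intro i hi'
    apply AddSubmonoid.subset_closure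
    exact ⟨i, lt_of_lt_of_le (Finset.mem_range.mp hi') hmL, L + i, Nat.le_add_right _ _,
      id, (M ⊔ N).id_mem, rfl⟩
  have hD : InK K (1 + D) := by
    apply InK.of_gens hdis hel
    apply sum_mem
    intro i hi'
    apply AddSubmonoid.subset_closure
    exact ⟨L + i, Nat.le_add_right _ _, i, lt_of_lt_of_le (Finset.mem_range.mp hi') hmL,
      id, (M ⊔ N).id_mem, rfl⟩
  -- the shift
  let sh : VV →ₗ[ZMod 2] VV :=
    Finsupp.lmapDomain (ZMod 2) (ZMod 2) (fun p : ℕ × List ℕ => (L + p.1, p.2))
  have hsh : ∀ i b, sh (bs i b) = bs (L + i) b := by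
    intro i b
    simp [sh, bs, Finsupp.mapDomain_single]
  have hsum : ∀ (T' : Module.End (ZMod 2) VV) (l : List (Module.End (ZMod 2) VV)) (v : VV),
      l.sum v = (l.map fun T' => T' v).sum := by
    intro _ l v
    induction l with
    | nil => simp
    | cons a l ih => simp [ih]
  -- subspaces
  let U1 : Submodule (ZMod 2) VV :=
    Submodule.span (ZMod 2) {w | ∃ j b, j < n ∧ (∀ x ∈ b, x < n) ∧ w = bs j b}
  let U2 : Submodule (ZMod 2) VV :=
    Submodule.span (ZMod 2) {w | ∃ j b, j < m ∧ (∀ x ∈ b, x < m) ∧ w = bs j b}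
  have hFU : ∀ v ∈ F, v ∈ U1 := by
    intro v hv
    rw [← Finsupp.sum_single v]
    apply sum_mem
    intro p hp
    have h1 : (Finsupp.single p (v p) : VV) = v p • bs p.1 p.2 := by simp [bs]
    rw [h1]
    apply Submodule.smul_mem
    apply Submodule.subset_span
    exact ⟨p.1, p.2, (hn v hv p hp).1, (hn v hv p hp).2, rfl⟩
  have hTU : ∀ v ∈ U1, T v ∈ U2 := by
    intro v hv
    induction hv using Submodule.span_induction with
    | mem v hv =>
      obtain ⟨j, b, hj, hb, rfl⟩ := hv
      rw [hPe j b hb]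
      apply list_sum_mem
      intro w hw
      obtain ⟨t, ht, rfl⟩ := List.mem_map.mp hw
      apply Submodule.subset_span
      refine ⟨t.1, b.map t.2, (hm j hj t ht).1, ?_, rfl⟩
      intro x hx
      obtain ⟨y, hy, rfl⟩ := List.mem_map.mp hx
      exact (hm j hj t ht).2 y (hb y hy)
    | zero => rw [map_zero]; exact Submodule.zero_mem _
    | add v w _ _ h1 h2 => rw [map_add]; exact Submodule.add_mem _ h1 h2
    | smul a v _ h1 => rw [map_smul]; exact Submodule.smul_mem _ _ h1
  have hAv : ∀ v ∈ U1, A v = sh (T v) := by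
    intro v hv
    induction hv using Submodule.span_induction with
    | mem v hv =>
      obtain ⟨j, b, hj, hb, rfl⟩ := hv
      rw [hPe j b hb]
      simp only [A, LinearMap.sum_apply]
      rw [Finset.sum_eq_single j]
      · rw [hsum 0, ev, map_list_sum, List.map_map, List.map_map]
        congr 1
        apply List.map_congr_left
        intro t _
        simp only [Function.comp_apply]
        rw [uop_bs, if_pos rfl, hsh]
      · intro j' _ hne
        rw [hsum 0, List.map_map]
        apply List.sum_eq_zero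
        intro w hw
        obtain ⟨t, _, rfl⟩ := List.mem_map.mp hw
        simp only [Function.comp_apply]
        rw [uop_bs, if_neg (Ne.symm hne)]
      · intro h
        exact absurd (Finset.mem_range.mpr hj) h
    | zero => simp
    | add v w _ _ h1 h2 => simp only [map_add, h1, h2]
    | smul a v _ h1 => simp only [map_smul, h1]
  have hBv : ∀ v ∈ U1, B v = 0 := by
    intro v hv
    induction hv using Submodule.span_induction with
    | mem v hv =>
      obtain ⟨j, b, hj, hb, rfl⟩ := hv
      simp only [B, LinearMap.sum_apply]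
      apply Finset.sum_eq_zero
      intro i _
      rw [hsum 0, List.map_map]
      apply List.sum_eq_zero
      intro w hw
      obtain ⟨t, _, rfl⟩ := List.mem_map.mp hw
      simp only [Function.comp_apply]
      rw [uop_bs, if_neg (by omega)]
    | zero => simp
    | add v w _ _ h1 h2 => simp only [map_add, h1, h2, add_zero]
    | smul a v _ h1 => simp only [map_smul, h1, smul_zero]
  have hBs : ∀ w ∈ U2, B (sh w) = S w := by
    intro w hw
    induction hw using Submodule.span_induction with
    | mem v hv =>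
      obtain ⟨j, b, hj, hb, rfl⟩ := hv
      rw [hQe j b hb, hsh]
      simp only [B, LinearMap.sum_apply]
      rw [Finset.sum_eq_single j]
      · rw [hsum 0, ev, List.map_map]
        congr 1
        apply List.map_congr_left
        intro t _
        simp only [Function.comp_apply]
        rw [uop_bs, if_pos rfl]
      · intro j' _ hne
        rw [hsum 0, List.map_map]
        apply List.sum_eq_zero
        intro w hw
        obtain ⟨t, _, rfl⟩ := List.mem_map.mp hw
        simp only [Function.comp_apply]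
        rw [uop_bs, if_neg (by omega)]
      · intro h
        exact absurd (Finset.mem_range.mpr hj) h
    | zero => simp
    | add v w _ _ h1 h2 => simp only [map_add, h1, h2]
    | smul a v _ h1 => simp only [map_smul, h1]
  have hCs : ∀ w ∈ U2, C (sh w) = w := by
    intro w hw
    induction hw using Submodule.span_induction with
    | mem v hv =>
      obtain ⟨j, b, hj, hb, rfl⟩ := hv
      rw [hsh]
      simp only [C, LinearMap.sum_apply]
      rw [Finset.sum_eq_single j]
      · rw [uop_bs, if_pos rfl, List.map_id]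
      · intro j' _ hne
        rw [uop_bs, if_neg (by omega)]
      · intro h
        exact absurd (Finset.mem_range.mpr hj) h
    | zero => simp
    | add v w _ _ h1 h2 => simp only [map_add, h1, h2]
    | smul a v _ h1 => simp only [map_smul, h1]
  have hDw : ∀ w ∈ U2, D w = sh w := by
    intro w hw
    induction hw using Submodule.span_induction with
    | mem v hv =>
      obtain ⟨j, b, hj, hb, rfl⟩ := hv
      rw [hsh]
      simp only [D, LinearMap.sum_apply]
      rw [Finset.sum_eq_single j]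
      · rw [uop_bs, if_pos rfl, List.map_id]
      · intro j' _ hne
        rw [uop_bs, if_neg (by omega)]
      · intro h
        exact absurd (Finset.mem_range.mpr hj) h
    | zero => simp
    | add v w _ _ h1 h2 => simp only [map_add, h1, h2]
    | smul a v _ h1 => simp only [map_smul, h1]
  have hDs : ∀ w ∈ U2, D (sh w) = 0 := by
    intro w hw
    induction hw using Submodule.span_induction with
    | mem v hv =>
      obtain ⟨j, b, hj, hb, rfl⟩ := hv
      rw [hsh]
      simp only [D, LinearMap.sum_apply]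
      apply Finset.sum_eq_zero
      intro i hi'
      have := Finset.mem_range.mp hi'
      rw [uop_bs, if_neg (by omega)]
    | zero => simp
    | add v w _ _ h1 h2 => simp only [map_add, h1, h2, add_zero]
    | smul a v _ h1 => simp only [map_smul, h1, smul_zero]
  obtain ⟨k, hk, hkT⟩ := ((hD.mul hC).mul hB).mul hA
  refine ⟨k, hk, fun v hv => ?_⟩
  rw [hkT, hgT]
  have hv1 := hFU v hv
  have hv2 := hTU v hv1
  have c2 : ∀ x : VV, x + x = 0 := fun x => ZModModule.add_self x
  have e1 : (1 + A) v = v + sh (T v) := by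
    rw [LinearMap.add_apply, hAv v hv1]; rfl
  have e2 : (1 + B) (v + sh (T v)) = sh (T v) := by
    rw [LinearMap.add_apply, map_add B, hBv v hv1, hBs _ hv2, hST v, zero_add]
    change v + sh (T v) + v = sh (T v)
    rw [add_comm v, add_assoc, c2, add_zero]
  have e3 : (1 + C) (sh (T v)) = sh (T v) + T v := by
    rw [LinearMap.add_apply, hCs _ hv2]; rfl
  have e4 : (1 + D) (sh (T v) + T v) = T v := by
    rw [LinearMap.add_apply, map_add D, hDs _ hv2, hDw _ hv2, zero_add]
    change sh (T v) + T v + sh (T v) = T v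
    rw [add_comm (sh (T v)), add_assoc, c2, add_zero]
  rw [Module.End.mul_apply, Module.End.mul_apply, Module.End.mul_apply, e1, e2, e3, e4]

end Join

end Pool.Agent.H38
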